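import Mathlib

/-!
# MP_6420b1_an: definitions used in the statement

Toeplitz sequences, Toeplitz systems, rigidity and partial rigidity.
-/

open MeasureTheory Filter Topology

namespace MP6420b1

/-- The left shift on `A^ℤ`. -/
def shift {A : Type*} (x : ℤ → A) : ℤ → A := fun n => x (n + 1)

/-- `x ∈ A^ℤ` is a Toeplitz sequence: it is not periodic, and for every `n` there is `p ≥ 1`
such that `x (n + k p) = x n` for all `k ∈ ℤ`. -/
def IsToeplitz {A : Type*} (x : ℤ → A) : Prop :=
  (¬ ∃ p : ℤ, 1 ≤ p ∧ ∀ n : ℤ, x (n + p) = x n) ∧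
    ∀ n : ℤ, ∃ p : ℤ, 1 ≤ p ∧ ∀ k : ℤ, x (n + k * p) = x n

/-- The orbit closure of `x ∈ A^ℤ` (product topology): the closure of the set of all
translates `σ^k x`, `k ∈ ℤ`. -/
def orbitClosure {A : Type*} [TopologicalSpace A] (x : ℤ → A) : Set (ℤ → A) :=
  closure (Set.range fun k : ℤ => fun n : ℤ => x (n + k))

theorem continuous_shift {A : Type*} [TopologicalSpace A] :
    Continuous (shift : (ℤ → A) → (ℤ → A)) := by
  unfold shift
  exact continuous_pi fun n => continuous_apply (n + 1)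

theorem shift_mem_orbitClosure {A : Type*} [TopologicalSpace A] (x : ℤ → A) {y : ℤ → A}
    (hy : y ∈ orbitClosure x) : shift y ∈ orbitClosure x := by
  unfold orbitClosure at *
  refine map_mem_closure continuous_shift hy ?_
  rintro _ ⟨k, rfl⟩
  refine ⟨k + 1, ?_⟩
  funext n
  simp only [shift]
  congr 1
  ring

/-- The shift acting on the orbit closure of `x`. -/
def orbitShift {A : Type*} [TopologicalSpace A] (x : ℤ → A) (y : orbitClosure x) :
    orbitClosure x :=
  ⟨shift y.1, shift_mem_orbitClosure x y.2⟩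

/-- The complexity of `x`: the number of words of length `n` that occur in `x`. -/
noncomputable def complexity {A : Type*} (x : ℤ → A) (n : ℕ) : ℕ :=
  Set.ncard {w : Fin n → A | ∃ j : ℤ, ∀ i : Fin n, w i = x (j + (i : ℕ))}

/-- Measure-theoretic rigidity of `(Y, S, μ)`: there is `n_k → ∞` such that
`μ (S^{n_k} B ∩ B) → μ B` for every measurable `B`. -/
def IsRigid {Y : Type*} [MeasurableSpace Y] (S : Y → Y) (μ : Measure Y) : Prop :=
  ∃ n : ℕ → ℕ, Tendsto n atTop atTop ∧
    ∀ B : Set Y, MeasurableSet B →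
      Tendsto (fun k => μ ((S^[n k] '' B) ∩ B)) atTop (𝓝 (μ B))

/-- Partial rigidity of `(Y, S, μ)`: there are `δ > 0` and `n_k → ∞` such that
`liminf μ (S^{n_k} B ∩ B) ≥ δ μ B` for every measurable `B`. -/
def IsPartiallyRigid {Y : Type*} [MeasurableSpace Y] (S : Y → Y) (μ : Measure Y) : Prop :=
  ∃ δ : ℝ, 0 < δ ∧ ∃ n : ℕ → ℕ, Tendsto n atTop atTop ∧
    ∀ B : Set Y, MeasurableSet B →
      ENNReal.ofReal δ * μ B ≤ liminf (fun k => μ ((S^[n k] '' B) ∩ B)) atTop

end MP6420b1
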