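import Mathlib
import Pool.Agent.Lib.MP_6420b1_an.Defs

/-!
# MP_6420b1_an: the Morse cocycle over the 2-adic odometer
-/

open MeasureTheory Filter Topology

namespace MP6420b1

/-! ### The Thue–Morse parity -/

/-- Thue–Morse sequence: parity of the sum of binary digits. -/
def t (n : ℕ) : Bool :=
  if h : n = 0 then false else xor (t (n / 2)) (decide (n % 2 = 1))
decreasing_by omega

theorem t_zero : t 0 = false := by rw [t]; simp

theorem t_eq (n : ℕ) : t n = xor (t (n / 2)) (decide (n % 2 = 1)) := by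
  by_cases h : n = 0
  · subst h; simp [t_zero]
  · conv_lhs => rw [t]
    simp [h]

theorem t_one : t 1 = true := by rw [t_eq]; simp [t_zero]

theorem t_two : t 2 = true := by rw [t_eq]; simp [t_one]

theorem t_split (a : ℕ) : ∀ q s : ℕ, s < 2 ^ a → t (2 ^ a * q + s) = xor (t q) (t s) := by
  induction a with
  | zero =>
    intro q s hs
    have : s = 0 := by simpa using hs
    subst this
    simp [t_zero]
  | succ a ih =>
    intro q s hs
    have h1 : (2 ^ (a + 1) * q + s) / 2 = 2 ^ a * q + s / 2 := by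
      have : 2 ^ (a + 1) * q + s = 2 * (2 ^ a * q) + s := by ring
      omega
    have h2 : (2 ^ (a + 1) * q + s) % 2 = s % 2 := by
      have : 2 ^ (a + 1) * q + s = 2 * (2 ^ a * q) + s := by ring
      omega
    have h3 : s / 2 < 2 ^ a := by
      have : 2 ^ (a + 1) = 2 * 2 ^ a := by ring
      omega
    rw [t_eq, h1, h2, ih q (s / 2) h3, t_eq s]
    simp

/-! ### Residues of 2-adic integers -/

/-- residue of `z` modulo `2^K`, as a natural number -/
noncomputable def r (K : ℕ) (z : ℤ_[2]) : ℕ := (PadicInt.toZModPow K z).val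

theorem r_lt (K : ℕ) (z : ℤ_[2]) : r K z < 2 ^ K := ZMod.val_lt _

theorem r_mod {K K' : ℕ} (h : K ≤ K') (z : ℤ_[2]) : r K' z % 2 ^ K = r K z := by
  unfold r
  rw [← PadicInt.cast_toZModPow K K' h z, ZMod.cast_eq_val, ZMod.val_natCast]

theorem r_add_int (K : ℕ) (z : ℤ_[2]) (m : ℤ) :
    (r K (z + m) : ℤ) = ((r K z : ℤ) + m) % 2 ^ K := by
  unfold r
  have h : PadicInt.toZModPow K (z + (m : ℤ_[2]))
      = (((PadicInt.toZModPow K z).val : ℤ) + m : ℤ) := by
    rw [map_add, map_intCast]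
    push_cast
    rw [ZMod.natCast_zmod_val]
  rw [h, ZMod.val_intCast]
  push_cast
  rfl

theorem r_add_nat (K : ℕ) (z : ℤ_[2]) (m : ℕ) : r K (z + m) = (r K z + m) % 2 ^ K := by
  have h := r_add_int K z m
  rw [Int.cast_natCast] at h
  exact_mod_cast h

theorem r_int (K : ℕ) (m : ℤ) : (r K (m : ℤ_[2]) : ℤ) = m % 2 ^ K := by
  have h := r_add_int K 0 m
  rw [zero_add] at h
  rw [h]
  simp [r]

theorem r_nat (K : ℕ) (m : ℕ) : r K (m : ℤ_[2]) = m % 2 ^ K := by
  have h := r_int K m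
  rw [Int.cast_natCast] at h
  exact_mod_cast h

theorem r_split {K K' : ℕ} (h : K ≤ K') (z : ℤ_[2]) :
    r K' z = 2 ^ K * (r K' z / 2 ^ K) + r K z := by
  conv_lhs => rw [← Nat.div_add_mod (r K' z) (2 ^ K), r_mod h]

/-- no carry beyond bit `K` when `m` is added to `z` -/
def NoCarry (K : ℕ) (m : ℤ) (z : ℤ_[2]) : Prop :=
  0 ≤ (r K z : ℤ) + m ∧ (r K z : ℤ) + m < 2 ^ K

theorem NoCarry.r_eq {K : ℕ} {m : ℤ} {z : ℤ_[2]} (h : NoCarry K m z) :
    (r K (z + m) : ℤ) = r K z + m := by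
  rw [r_add_int]
  exact Int.emod_eq_of_lt h.1 h.2

theorem NoCarry.r_high {K K' : ℕ} {m : ℤ} {z : ℤ_[2]} (h : NoCarry K m z) (hK : K ≤ K') :
    r K' (z + m) = 2 ^ K * (r K' z / 2 ^ K) + r K (z + m) := by
  have h1 : (r K' (z + m) : ℤ) = ((r K' z : ℤ) + m) % 2 ^ K' := r_add_int K' z m
  have h2 := r_split hK z
  have h3 := h.r_eq
  have h4 : (r K' z : ℤ) + m = 2 ^ K * ((r K' z / 2 ^ K : ℕ) : ℤ) + r K (z + m) := by
    rw [h3]
    conv_lhs => rw [h2]
    push_cast
    ring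
  have h5 : r K' z / 2 ^ K < 2 ^ (K' - K) := by
    rw [Nat.div_lt_iff_lt_mul (by positivity), ← pow_add]
    rw [Nat.sub_add_cancel hK]
    exact r_lt K' z
  have h6 : 2 ^ K * (r K' z / 2 ^ K) + r K (z + m) < 2 ^ K' := by
    have h7 := r_lt K (z + m)
    have h8 : 2 ^ K' = 2 ^ K * 2 ^ (K' - K) := by
      rw [← pow_add, Nat.add_sub_cancel' hK]
    rw [h8]
    calc 2 ^ K * (r K' z / 2 ^ K) + r K (z + m) < 2 ^ K * (r K' z / 2 ^ K) + 2 ^ K := by omega
      _ = 2 ^ K * (r K' z / 2 ^ K + 1) := by ring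
      _ ≤ 2 ^ K * 2 ^ (K' - K) := Nat.mul_le_mul_left _ h5
  rw [h4] at h1
  have h9 : ((2 ^ K * (r K' z / 2 ^ K) + r K (z + m) : ℕ) : ℤ) < 2 ^ K' := by exact_mod_cast h6
  rw [Int.emod_eq_of_lt (by positivity) (by push_cast at h9 ⊢; exact h9)] at h1
  exact_mod_cast h1

theorem NoCarry.div_eq {K K' A : ℕ} {m : ℤ} {z : ℤ_[2]} (h : NoCarry K m z) (hA : K ≤ A)
    (hK : K ≤ K') : r K' (z + m) / 2 ^ A = r K' z / 2 ^ A := by
  have h1 : 2 ^ A = 2 ^ K * 2 ^ (A - K) := by rw [← pow_add, Nat.add_sub_cancel' hA]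
  rw [h1, ← Nat.div_div_eq_div_mul, ← Nat.div_div_eq_div_mul, h.r_high hK]
  congr 1
  rw [Nat.mul_add_div (by positivity), Nat.div_eq_of_lt (r_lt K (z + m)), add_zero]

/-! ### The Morse cocycle -/

/-- finite-stage Morse cocycle -/
noncomputable def cc (K : ℕ) (m : ℤ) (z : ℤ_[2]) : Bool := xor (t (r K (z + m))) (t (r K z))

open Classical in
/-- the Morse cocycle -/
noncomputable def c (m : ℤ) (z : ℤ_[2]) : Bool := decide (∀ᶠ K in atTop, cc K m z = true)

theorem NoCarry.cc_eq {K K' : ℕ} {m : ℤ} {z : ℤ_[2]} (h : NoCarry K m z) (hK : K ≤ K') :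
    cc K' m z = cc K m z := by
  unfold cc
  have h1 := h.r_high hK
  have h2 := r_split hK z
  generalize r K' z / 2 ^ K = q at h1 h2
  rw [h1, h2, t_split K _ _ (r_lt K _), t_split K _ _ (r_lt K _)]
  cases t q <;> cases t (r K (z + m)) <;> cases t (r K z) <;> rfl

theorem c_iff (m : ℤ) (z : ℤ_[2]) : c m z = true ↔ ∀ᶠ K in atTop, cc K m z = true := by
  simp [c]

theorem NoCarry.c_eq {K : ℕ} {m : ℤ} {z : ℤ_[2]} (h : NoCarry K m z) : c m z = cc K m z := by
  by_cases hc : cc K m z = true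
  · rw [hc, c_iff]
    filter_upwards [eventually_ge_atTop K] with K' hK'
    rw [h.cc_eq hK', hc]
  · have hc' : cc K m z = false := by simpa using hc
    rw [hc', ← Bool.not_eq_true, c_iff]
    intro hev
    obtain ⟨K', h1, h2⟩ := (hev.and (eventually_ge_atTop K)).exists
    rw [h.cc_eq h2, hc'] at h1
    exact absurd h1 (by simp)

theorem c_zero (z : ℤ_[2]) : c 0 z = false := by
  have h : NoCarry 0 0 z := by
    unfold NoCarry
    have := r_lt 0 z
    constructor
    · positivity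
    · push_cast
      omega
  rw [h.c_eq]
  simp [cc]

/-- `z` is not an integer. -/
def NonInt (z : ℤ_[2]) : Prop := ∀ m : ℤ, z ≠ m

theorem NonInt.add {z : ℤ_[2]} (h : NonInt z) (m : ℤ) : NonInt (z + m) := by
  intro k hk
  apply h (k - m)
  rw [Int.cast_sub, ← hk]
  ring

theorem NonInt.neg {z : ℤ_[2]} (h : NonInt z) : NonInt (-z) := by
  intro k hk
  apply h (-k)
  rw [Int.cast_neg, ← hk]
  ring

theorem NonInt.eventually_ne {z : ℤ_[2]} (h : NonInt z) (n : ℕ) : ∀ᶠ K in atTop, r K z ≠ n := by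
  have h1 : z ≠ (n : ℤ_[2]) := by
    have := h n
    simpa using this
  have h2 : ¬ ∀ K, PadicInt.toZModPow K z = PadicInt.toZModPow K (n : ℤ_[2]) := by
    rw [PadicInt.ext_of_toZModPow]
    exact h1
  push Not at h2
  obtain ⟨K, hK⟩ := h2
  filter_upwards [eventually_ge_atTop K] with K' hK' hr
  apply hK
  have h3 : r K z = n % 2 ^ K := by
    rw [← r_mod hK' z, hr]
  rw [← r_nat] at h3
  unfold r at h3
  exact ZMod.val_injective _ h3

theorem NonInt.eventually_ge {z : ℤ_[2]} (h : NonInt z) (L : ℕ) :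
    ∀ᶠ K in atTop, L ≤ r K z := by
  have h1 : ∀ᶠ K in atTop, ∀ n ∈ Finset.range L, r K z ≠ n := by
    rw [Finset.eventually_all]
    intro n _
    exact h.eventually_ne n
  filter_upwards [h1] with K hK
  by_contra hlt
  push Not at hlt
  exact hK _ (Finset.mem_range.mpr hlt) rfl

theorem NonInt.eventually_le {z : ℤ_[2]} (h : NonInt z) (L : ℕ) :
    ∀ᶠ K in atTop, r K z + L < 2 ^ K := by
  filter_upwards [h.neg.eventually_ge (L + 1), h.eventually_ge 1] with K hK hK1
  have h1 := r_add_int K z 0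
  have h2 : r K (z + (-z)) = 0 := by simp [r]
  have h3 : (r K (z + -z) : ℤ) = ((r K z : ℤ) + r K (-z)) % 2 ^ K := by
    have e1 : (r K (z + -z) : ZMod (2 ^ K)) = r K z + r K (-z) := by
      unfold r
      rw [ZMod.natCast_zmod_val, ZMod.natCast_zmod_val, ZMod.natCast_zmod_val, map_add]
    have e2 : ((r K (z + -z) : ℕ) : ZMod (2 ^ K)) = ((r K z + r K (-z) : ℕ) : ZMod (2 ^ K)) := by
      push_cast
      exact e1
    rw [ZMod.natCast_eq_natCast_iff'] at e2
    rw [Nat.mod_eq_of_lt (r_lt K _)] at e2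
    exact_mod_cast e2
  rw [h2] at h3
  have h4 : (2 ^ K : ℤ) ∣ (r K z : ℤ) + r K (-z) := Int.dvd_of_emod_eq_zero (by exact_mod_cast h3.symm)
  have h5 : (2 ^ K : ℕ) ∣ r K z + r K (-z) := by exact_mod_cast h4
  obtain ⟨q, hq⟩ := h5
  have h6 := r_lt K z
  have h7 := r_lt K (-z)
  have h8 : q = 1 := by
    have hq1 : q < 2 := by
      by_contra hge
      push Not at hge
      have : 2 ^ K * 2 ≤ 2 ^ K * q := Nat.mul_le_mul_left _ hge
      omega
    have hq0 : q ≠ 0 := by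
      rintro rfl
      omega
    omega
  rw [h8] at hq
  omega

theorem NonInt.noCarry {z : ℤ_[2]} (h : NonInt z) (L : ℕ) :
    ∀ᶠ K in atTop, ∀ m : ℤ, |m| ≤ L → NoCarry K m z := by
  filter_upwards [h.eventually_le L, h.eventually_ge L] with K h1 h2 m hm
  rw [abs_le] at hm
  unfold NoCarry
  constructor
  · have : (L : ℤ) ≤ r K z := by exact_mod_cast h2
    linarith [hm.1]
  · have : (r K z : ℤ) + L < 2 ^ K := by exact_mod_cast h1
    linarith [hm.2]

theorem NonInt.noCarry' {z : ℤ_[2]} (h : NonInt z) (m : ℤ) :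
    ∀ᶠ K in atTop, NoCarry K m z := by
  filter_upwards [h.noCarry m.natAbs] with K hK
  exact hK m (by simp)

theorem c_add {z : ℤ_[2]} (h : NonInt z) (a b : ℤ) :
    c (a + b) z = xor (c a z) (c b (z + a)) := by
  obtain ⟨K, ⟨h1, h2⟩, h3⟩ :=
    (((h.noCarry' (a + b)).and (h.noCarry' a)).and ((h.add a).noCarry' b)).exists
  rw [h1.c_eq, h2.c_eq, h3.c_eq]
  unfold cc
  rw [Int.cast_add, ← add_assoc]
  cases t (r K (z + a + b)) <;> cases t (r K (z + a)) <;> cases t (r K z) <;> rfl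

end MP6420b1
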