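import Mathlib
import Pool.Agent.Lib.MP_6420b1_an.Basic

/-!
# MP_6420b1_an: the Toeplitz sequence and the coding map
-/

open MeasureTheory Filter Topology

namespace MP6420b1

/-- positions of the blocks of binary digits: `0, 6, 13, 21, …` -/
def KK : ℕ → ℕ
  | 0 => 0
  | n + 1 => KK n + (n + 6)

theorem KK_succ (n : ℕ) : KK (n + 1) = KK n + (n + 6) := rfl

theorem KK_mono : Monotone KK := monotone_nat_of_le_succ fun n => by rw [KK_succ]; omega

theorem le_KK (n : ℕ) : n ≤ KK n := by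
  induction n with
  | zero => simp
  | succ n ih => rw [KK_succ]; omega

/-- The `n`-th block of binary digits of `z` (digits `KK n, …, KK (n+1) - 1`), as a number. -/
noncomputable def dig (n : ℕ) (z : ℤ_[2]) : ℕ := r (KK (n + 1)) z / 2 ^ KK n

/-- `z` has a coincidence at level `n`: the `n`-th block of digits is `0…0` or `1…1`. -/
def coin (n : ℕ) (z : ℤ_[2]) : Prop := dig n z = 0 ∨ dig n z = 2 ^ (n + 6) - 1

open Classical in
/-- The zeroth symbol -/
noncomputable def x0 (z : ℤ_[2]) (ε : Bool) : Bool :=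
  decide ((∃ N, coin N z ∧ (∀ n < N, ¬ coin n z) ∧ t (r (KK N) z) = true) ∨
    ((∀ n, ¬ coin n z) ∧ ε = true))

theorem x0_iff (z : ℤ_[2]) (ε : Bool) : x0 z ε = true ↔
    ((∃ N, coin N z ∧ (∀ n < N, ¬ coin n z) ∧ t (r (KK N) z) = true) ∨
    ((∀ n, ¬ coin n z) ∧ ε = true)) := by
  simp [x0]

theorem x0_eq {z : ℤ_[2]} {N : ℕ} (h1 : coin N z) (h2 : ∀ n < N, ¬ coin n z) (ε : Bool) :
    x0 z ε = t (r (KK N) z) := by
  rw [Bool.eq_iff_iff, x0_iff]
  constructor
  · rintro (⟨M, hM, hM2, hM3⟩ | ⟨h, _⟩)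
    · have : M = N := by
        rcases lt_trichotomy M N with h | h | h
        · exact absurd hM (h2 M h)
        · exact h
        · exact absurd h1 (hM2 N h)
      subst this
      exact hM3
    · exact absurd h1 (h N)
  · intro h
    exact Or.inl ⟨N, h1, h2, h⟩

theorem x0_eq_none {z : ℤ_[2]} (h : ∀ n, ¬ coin n z) (ε : Bool) : x0 z ε = ε := by
  rw [Bool.eq_iff_iff, x0_iff]
  constructor
  · rintro (⟨M, hM, _⟩ | ⟨_, h⟩)
    · exact absurd hM (h M)
    · exact h
  · intro h'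
    exact Or.inr ⟨h, h'⟩

theorem exists_least {z : ℤ_[2]} (h : ∃ n, coin n z) : ∃ N, coin N z ∧ ∀ n < N, ¬ coin n z := by
  classical
  exact ⟨Nat.find h, Nat.find_spec h, fun n hn => Nat.find_min h hn⟩

/-- equal residues mod `2^K`, `K ≥ KK (n+1)`, give equal `n`-th digit blocks -/
theorem dig_congr {n K : ℕ} (hn : KK (n + 1) ≤ K) {z w : ℤ_[2]} (h : r K z = r K w) :
    dig n z = dig n w := by
  unfold dig
  rw [← r_mod hn z, ← r_mod hn w, h]

theorem coin_congr {n K : ℕ} (hn : KK (n + 1) ≤ K) {z w : ℤ_[2]} (h : r K z = r K w) :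
    coin n z ↔ coin n w := by
  unfold coin
  rw [dig_congr hn h]

/-- digit blocks above `K` are not changed by adding `m` when there is no carry -/
theorem NoCarry.dig_eq {K n : ℕ} {m : ℤ} {z : ℤ_[2]} (h : NoCarry K m z) (hn : K ≤ KK n) :
    dig n (z + m) = dig n z := by
  unfold dig
  exact h.div_eq hn (hn.trans (KK_mono (Nat.le_succ n)))

theorem NoCarry.coin_iff {K n : ℕ} {m : ℤ} {z : ℤ_[2]} (h : NoCarry K m z) (hn : K ≤ KK n) :
    coin n (z + m) ↔ coin n z := by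
  unfold coin
  rw [h.dig_eq hn]

/-- The Toeplitz sequence. -/
noncomputable def xT (m : ℤ) : Bool := x0 (m : ℤ_[2]) false

theorem exists_coin_int' (m : ℤ) (n0 : ℕ) : ∃ n, coin n (m : ℤ_[2]) ∧ n0 ≤ n := by
  -- take n with |m| < 2 ^ KK n
  obtain ⟨n, hn, hn0⟩ : ∃ n, |m| < 2 ^ KK n ∧ n0 ≤ n := by
    refine ⟨m.natAbs + n0, ?_, by omega⟩
    have h1 : m.natAbs < 2 ^ m.natAbs := Nat.lt_two_pow_self
    have h2 : 2 ^ m.natAbs ≤ 2 ^ KK (m.natAbs + n0) :=
      Nat.pow_le_pow_right (by norm_num) ((le_KK _).trans (KK_mono (by omega)))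
    have h3 : (m.natAbs : ℤ) < 2 ^ KK (m.natAbs + n0) := by exact_mod_cast h1.trans_le h2
    rwa [Int.natCast_natAbs] at h3
  refine ⟨n, ?_, hn0⟩
  have hr := r_int (KK (n + 1)) m
  have hK : KK (n + 1) = KK n + (n + 6) := rfl
  rw [abs_lt] at hn
  unfold coin dig
  rcases le_or_gt 0 m with hm | hm
  · left
    have h1 : (r (KK (n + 1)) (m : ℤ_[2]) : ℤ) = m := by
      rw [hr]
      apply Int.emod_eq_of_lt hm
      refine hn.2.trans_le ?_
      exact pow_le_pow_right₀ (by norm_num) (KK_mono (Nat.le_succ n))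
    apply Nat.div_eq_of_lt
    have : (r (KK (n + 1)) (m : ℤ_[2]) : ℤ) < 2 ^ KK n := by rw [h1]; exact hn.2
    exact_mod_cast this
  · right
    have h1 : (r (KK (n + 1)) (m : ℤ_[2]) : ℤ) = m + 2 ^ KK (n + 1) := by
      rw [hr]
      rw [← Int.add_emod_right]
      apply Int.emod_eq_of_lt
      · have : (2:ℤ) ^ KK n ≤ 2 ^ KK (n + 1) :=
          pow_le_pow_right₀ (by norm_num) (KK_mono (Nat.le_succ n))
        linarith [hn.1]
      · linarith
    have h2 : (2:ℤ) ^ KK (n + 1) = 2 ^ KK n * 2 ^ (n + 6) := by rw [hK, pow_add]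
    have h3 : 1 ≤ 2 ^ (n + 6) := Nat.one_le_two_pow
    apply Nat.div_eq_of_lt_le
    · zify
      rw [h1, h2, Nat.cast_sub h3]
      push_cast
      nlinarith [hn.1]
    · zify
      rw [h1, h2, Nat.cast_sub h3]
      push_cast
      nlinarith [hn.2]

theorem exists_coin_int (m : ℤ) : ∃ n, coin n (m : ℤ_[2]) :=
  (exists_coin_int' m 0).imp fun _ h => h.1

theorem xT_toeplitz (n : ℤ) : ∃ p : ℤ, 1 ≤ p ∧ ∀ k : ℤ, xT (n + k * p) = xT n := by
  obtain ⟨N, hN, hN2⟩ := exists_least (exists_coin_int n)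
  refine ⟨2 ^ KK (N + 1), ?_, ?_⟩
  · exact_mod_cast Nat.one_le_two_pow
  · intro k
    have hr : r (KK (N + 1)) ((n + k * 2 ^ KK (N + 1) : ℤ) : ℤ_[2]) = r (KK (N + 1)) (n : ℤ_[2]) := by
      rw [← @Nat.cast_inj ℤ, r_int, r_int]
      simp
    have hr2 : r (KK N) ((n + k * 2 ^ KK (N + 1) : ℤ) : ℤ_[2]) = r (KK N) (n : ℤ_[2]) := by
      have h1 : KK N ≤ KK (N + 1) := KK_mono (Nat.le_succ N)
      rw [← r_mod h1, ← r_mod h1, hr]
    unfold xT
    rw [x0_eq hN hN2, x0_eq (N := N), hr2]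
    · exact (coin_congr le_rfl hr).mpr hN
    · intro m hm
      rw [coin_congr (KK_mono (by omega : m + 1 ≤ N + 1)) hr]
      exact hN2 m hm

/-- The coding map. -/
noncomputable def PI (ω : ℤ_[2] × Bool) : ℤ → Bool :=
  fun m => x0 (ω.1 + m) (xor ω.2 (c m ω.1))

/-- Every finite window of `PI (z, ε)` occurs in `xT`. -/
theorem window {z : ℤ_[2]} (hz : NonInt z) (ε : Bool) (L : ℕ) :
    ∃ j : ℤ, ∀ i : ℤ, |i| ≤ L → xT (i + j) = PI (z, ε) i := by
  classical
  obtain ⟨n0, hn0⟩ : ∃ n0, ∀ m : ℤ, |m| ≤ L → NoCarry (KK n0) m z := by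
    have h1 : Tendsto KK atTop atTop :=
      tendsto_atTop_mono le_KK tendsto_id
    exact (h1.eventually (hz.noCarry L)).exists
  set K := KK n0 with hK
  set a := r K z with ha
  -- residues of the shifted integers
  have hres : ∀ i : ℤ, |i| ≤ L → ∀ τ : ℕ,
      r K (((i + (a + τ * 2 ^ K) : ℤ)) : ℤ_[2]) = r K (z + i) := by
    intro i hi τ
    rw [← @Nat.cast_inj ℤ, r_int, (hn0 i hi).r_eq]
    have h1 := (hn0 i hi).1
    have h2 := (hn0 i hi).2
    rw [show i + ((a : ℤ) + τ * 2 ^ K) = ((r K z : ℤ) + i) + τ * 2 ^ K by rw [← ha]; ring]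
    rw [Int.add_mul_emod_self_right]
    exact Int.emod_eq_of_lt h1 h2
  have hlow : ∀ i : ℤ, |i| ≤ L → ∀ τ : ℕ, ∀ n < n0,
      (coin n (((i + (a + τ * 2 ^ K) : ℤ)) : ℤ_[2]) ↔ coin n (z + i)) := by
    intro i hi τ n hn
    exact coin_congr (K := K) (KK_mono (by omega : n + 1 ≤ n0)) (hres i hi τ)
  have hbig : ∀ i : ℤ, |i| ≤ L → ∀ τ : ℕ, ∀ K' : ℕ, (τ + 1) * 2 ^ K ≤ 2 ^ K' →
      r K' (((i + (a + τ * 2 ^ K) : ℤ)) : ℤ_[2]) = 2 ^ K * τ + r K (z + i) := by
    intro i hi τ K' hK'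
    rw [← @Nat.cast_inj ℤ, r_int]
    push_cast
    rw [(hn0 i hi).r_eq]
    have h1 := (hn0 i hi).1
    have h2 := (hn0 i hi).2
    have h3 : ((τ : ℤ) + 1) * 2 ^ K ≤ 2 ^ K' := by exact_mod_cast hK'
    rw [Int.emod_eq_of_lt]
    · rw [← ha]; ring
    · rw [← ha] at h1
      have : (0:ℤ) ≤ τ * 2 ^ K := by positivity
      linarith
    · rw [← ha] at h2
      linarith
  have claimA : ∀ τ : Bool, ∀ i : ℤ, |i| ≤ L → (∀ n < n0, ¬ coin n (z + i)) →
      xT (i + (a + (if τ then 1 else 0 : ℕ) * 2 ^ K)) = xor τ (t (r K (z + i))) := by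
    intro τ i hi hno
    unfold xT
    have hlt : r K (z + i) < 2 ^ K := r_lt _ _
    cases τ
    · simp only [Bool.false_eq_true, if_false]
      have hb := hbig i hi 0
      have hl := hlow i hi 0
      rw [x0_eq (N := n0)]
      · rw [← hK, hres i hi 0]
        simp
      · left
        unfold dig
        rw [hb (KK (n0 + 1)) (by
          simp only [zero_add, one_mul]
          exact Nat.pow_le_pow_right (by norm_num) (KK_mono (Nat.le_succ n0)))]
        rw [mul_zero, zero_add, ← hK]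
        exact Nat.div_eq_of_lt hlt
      · intro n hn
        rw [hl n hn]
        exact hno n hn
    · simp only [if_true]
      have hb := hbig i hi 1
      have hl := hlow i hi 1
      have hp1 : (1 + 1) * 2 ^ K ≤ 2 ^ KK (n0 + 1) := by
        rw [KK_succ, ← hK, pow_add, mul_comm]
        apply Nat.mul_le_mul_left
        calc 1 + 1 = 2 ^ 1 := by norm_num
          _ ≤ 2 ^ (n0 + 6) := Nat.pow_le_pow_right (by norm_num) (by omega)
      have hp2 : (1 + 1) * 2 ^ K ≤ 2 ^ KK (n0 + 1 + 1) :=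
        hp1.trans (Nat.pow_le_pow_right (by norm_num) (KK_mono (Nat.le_succ (n0 + 1))))
      rw [x0_eq (N := n0 + 1)]
      · rw [hb _ hp1, t_split K 1 _ hlt, t_one]
      · left
        unfold dig
        rw [hb _ hp2]
        apply Nat.div_eq_of_lt
        omega
      · intro n hn
        rcases Nat.lt_succ_iff_lt_or_eq.mp hn with h | h
        · rw [hl n h]
          exact hno n h
        · subst h
          unfold coin dig
          rw [hb _ hp1, ← hK, Nat.mul_add_div (by positivity), Nat.div_eq_of_lt hlt]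
          have h64 : 64 ≤ 2 ^ (n + 6) := by
            calc 64 = 2 ^ 6 := by norm_num
              _ ≤ 2 ^ (n + 6) := Nat.pow_le_pow_right (by norm_num) (by omega)
          omega
  have claimB : ∃ τ : Bool, ∀ i : ℤ, |i| ≤ L → (∀ n < n0, ¬ coin n (z + i)) →
      PI (z, ε) i = xor τ (t (r K (z + i))) := by
    by_cases hC : ∃ n, coin n z ∧ n0 ≤ n
    · -- least such `n`
      obtain ⟨N, ⟨hN1, hN2⟩, hN3⟩ : ∃ N, (coin N z ∧ n0 ≤ N) ∧
          ∀ n < N, ¬ (coin n z ∧ n0 ≤ n) :=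
        ⟨Nat.find hC, Nat.find_spec hC, fun n hn => Nat.find_min hC hn⟩
      refine ⟨t (r (KK N) z / 2 ^ K), ?_⟩
      intro i hi hno
      unfold PI
      rw [x0_eq (N := N)]
      · rw [(hn0 i hi).r_high (K' := KK N) (KK_mono hN2), t_split K _ _ (r_lt _ _)]
      · rw [(hn0 i hi).coin_iff (KK_mono hN2)]
        exact hN1
      · intro n hn
        rcases lt_or_ge n n0 with h | h
        · exact hno n h
        · rw [(hn0 i hi).coin_iff (KK_mono h)]
          intro hc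
          exact hN3 n hn ⟨hc, h⟩
    · refine ⟨xor ε (t (r K z)), ?_⟩
      intro i hi hno
      unfold PI
      rw [x0_eq_none]
      · rw [(hn0 i hi).c_eq]
        unfold cc
        cases ε <;> cases t (r K z) <;> cases t (r K (z + i)) <;> rfl
      · intro n
        rcases lt_or_ge n n0 with h | h
        · exact hno n h
        · rw [(hn0 i hi).coin_iff (KK_mono h)]
          intro hc
          exact hC ⟨n, hc, h⟩
  obtain ⟨τ, hτ⟩ := claimB
  refine ⟨a + (if τ then 1 else 0 : ℕ) * 2 ^ K, ?_⟩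
  intro i hi
  by_cases hno : ∀ n < n0, ¬ coin n (z + i)
  · rw [hτ i hi hno, claimA τ i hi hno]
  · push Not at hno
    obtain ⟨n1, hn1, hcn1⟩ := hno
    obtain ⟨N, hN, hN2⟩ := exists_least ⟨n1, hcn1⟩
    have hNn : N < n0 := by
      by_contra hge
      push Not at hge
      exact hN2 n1 (lt_of_lt_of_le hn1 hge) hcn1
    unfold PI xT
    rw [x0_eq hN hN2, x0_eq (N := N)]
    · have h1 : KK N ≤ K := KK_mono hNn.le
      rw [← r_mod h1, ← r_mod h1, hres i hi]
    · rw [hlow i hi _ N hNn]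
      exact hN
    · intro n hn
      rw [hlow i hi _ n (hn.trans hNn)]
      exact hN2 n hn

theorem PI_mem {z : ℤ_[2]} (hz : NonInt z) (ε : Bool) : PI (z, ε) ∈ orbitClosure xT := by
  unfold orbitClosure
  rw [mem_closure_iff_nhds]
  intro U hU
  -- basic neighbourhoods in the product topology
  rw [nhds_pi, Filter.mem_pi] at hU
  obtain ⟨I, hI, V, hV, hVU⟩ := hU
  obtain ⟨L, hL⟩ : ∃ L : ℕ, ∀ i ∈ I, |i| ≤ L := by
    obtain ⟨b, hb⟩ := (hI.image fun i : ℤ => |i|).bddAbove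
    refine ⟨b.toNat, fun i hi => ?_⟩
    have h1 : |i| ≤ b := hb (Set.mem_image_of_mem _ hi)
    exact h1.trans (Int.self_le_toNat b)
  obtain ⟨j, hj⟩ := window hz ε L
  refine ⟨fun n => xT (n + j), hVU ?_, ⟨j, rfl⟩⟩
  intro i hi
  simp only
  rw [hj i (hL i hi)]
  exact mem_of_mem_nhds (hV i)

end MP6420b1
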