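import Mathlib
import Pool.Agent.Lib.MP_6420b1_an.Symbolic

/-!
# MP_6420b1_an: the Toeplitz sequence has linear complexity
-/

open MeasureTheory Filter Topology

namespace MP6420b1

open Classical in
/-- the eight words of length `2 ^ (KK n0 + j)` from which `xT` is built -/
noncomputable def blk (n0 j : ℕ) (p : Bool × Bool × Bool) (i : ℕ) : Bool :=
  if ∃ n < n0, coin n (i : ℤ_[2]) then xT i else
    if (p.1 = true ∧ i / 2 ^ KK n0 = 0) ∨ (p.2.1 = true ∧ i / 2 ^ KK n0 = 2 ^ j - 1) then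
      t (i % 2 ^ KK n0) else xor p.2.2 (t i)

/-- `xT` is a concatenation of the words `blk n0 j p`. -/
theorem block (n0 j : ℕ) (hj : j < n0 + 6) (q : ℤ) :
    ∃ p : Bool × Bool × Bool, ∀ i : ℕ, i < 2 ^ (KK n0 + j) →
      xT (q * 2 ^ (KK n0 + j) + i) = blk n0 j p i := by
  classical
  set K := KK n0 + j with hK
  have hKn : KK n0 ≤ K := by omega
  have hKn1 : K ≤ KK (n0 + 1) := by rw [KK_succ]; omega
  set z : ℤ_[2] := ((q * 2 ^ K : ℤ) : ℤ_[2]) with hz
  have hr0 : r K z = 0 := by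
    rw [← @Nat.cast_inj ℤ, hz, r_int]
    simp
  have hnc : ∀ i : ℕ, i < 2 ^ K → NoCarry K (i : ℤ) z := by
    intro i hi
    unfold NoCarry
    rw [hr0]
    constructor
    · positivity
    · have : ((i : ℕ) : ℤ) < 2 ^ K := by exact_mod_cast hi
      simpa using this
  have hri : ∀ i : ℕ, i < 2 ^ K → r K (z + ((i : ℤ) : ℤ_[2])) = i := by
    intro i hi
    have := (hnc i hi).r_eq
    rw [hr0] at this
    have h2 : (r K (z + ((i : ℤ) : ℤ_[2])) : ℤ) = i := by rw [this]; simp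
    exact_mod_cast h2
  have hri' : ∀ i : ℕ, i < 2 ^ K → r K (i : ℤ_[2]) = i := by
    intro i hi
    rw [r_nat, Nat.mod_eq_of_lt hi]
  have hcast : ∀ i : ℕ, ((q * 2 ^ K + i : ℤ) : ℤ_[2]) = z + ((i : ℤ) : ℤ_[2]) := by
    intro i
    rw [hz, Int.cast_add]
  have hlow : ∀ i : ℕ, i < 2 ^ K → ∀ n < n0,
      (coin n (z + ((i : ℤ) : ℤ_[2])) ↔ coin n (i : ℤ_[2])) := by
    intro i hi n hn
    apply coin_congr (K := K) ((KK_mono (by omega : n + 1 ≤ n0)).trans hKn)
    rw [hri i hi, hri' i hi]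
  -- the digit block at level `n0`
  set Q := r (KK (n0 + 1)) z / 2 ^ K with hQ
  have hQlt : Q < 2 ^ (n0 + 6 - j) := by
    rw [hQ, Nat.div_lt_iff_lt_mul (by positivity), ← pow_add]
    have : n0 + 6 - j + K = KK (n0 + 1) := by rw [KK_succ]; omega
    rw [this]
    exact r_lt _ _
  have hdig : ∀ i : ℕ, i < 2 ^ K → dig n0 (z + ((i : ℤ) : ℤ_[2])) = 2 ^ j * Q + i / 2 ^ KK n0 := by
    intro i hi
    unfold dig
    rw [(hnc i hi).r_high hKn1, hri i hi, ← hQ, hK, pow_add, mul_assoc,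
      Nat.mul_add_div (by positivity)]
  have hmid : ∀ i : ℕ, i < 2 ^ K → (coin n0 (z + ((i : ℤ) : ℤ_[2])) ↔
      ((decide (Q = 0) = true ∧ i / 2 ^ KK n0 = 0) ∨
        (decide (Q = 2 ^ (n0 + 6 - j) - 1) = true ∧ i / 2 ^ KK n0 = 2 ^ j - 1))) := by
    intro i hi
    unfold coin
    rw [hdig i hi]
    have hd : i / 2 ^ KK n0 < 2 ^ j := by
      rw [Nat.div_lt_iff_lt_mul (by positivity), ← pow_add, add_comm j, ← hK]
      exact hi
    generalize i / 2 ^ KK n0 = d at hd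
    simp only [decide_eq_true_eq]
    have hpj : 1 ≤ 2 ^ j := Nat.one_le_two_pow
    have hpm : 1 ≤ 2 ^ (n0 + 6 - j) := Nat.one_le_two_pow
    have hpp : 2 ^ (n0 + 6) = 2 ^ j * 2 ^ (n0 + 6 - j) := by
      rw [← pow_add]
      congr 1
      omega
    constructor
    · rintro (h | h)
      · left
        constructor
        · by_contra hne
          have : 1 ≤ Q := Nat.one_le_iff_ne_zero.mpr hne
          have : 2 ^ j * 1 ≤ 2 ^ j * Q := Nat.mul_le_mul_left _ this
          omega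
        · omega
      · right
        have hQe : Q = 2 ^ (n0 + 6 - j) - 1 := by
          by_contra hne
          have h1 : Q + 1 + 1 ≤ 2 ^ (n0 + 6 - j) := by omega
          have h2 : 2 ^ j * (Q + 1 + 1) ≤ 2 ^ j * 2 ^ (n0 + 6 - j) := Nat.mul_le_mul_left _ h1
          rw [← hpp] at h2
          have h3 : 2 ^ j * (Q + 1 + 1) = 2 ^ j * Q + 2 ^ j + 2 ^ j := by ring
          omega
        refine ⟨hQe, ?_⟩
        have h4 : 2 ^ j * Q + 2 ^ j = 2 ^ (n0 + 6) := by
          rw [hpp, ← Nat.mul_succ]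
          congr 1
          omega
        omega
    · rintro (⟨h1, h2⟩ | ⟨h1, h2⟩)
      · left
        rw [h1, h2, mul_zero, add_zero]
      · right
        have h4 : 2 ^ j * Q + 2 ^ j = 2 ^ (n0 + 6) := by
          rw [hpp, ← Nat.mul_succ]
          congr 1
          omega
        omega
  -- the least coincidence level `> n0` of `z`
  obtain ⟨N, ⟨hN1, hN2⟩, hN3⟩ : ∃ N, (coin N z ∧ n0 + 1 ≤ N) ∧
      ∀ n < N, ¬ (coin n z ∧ n0 + 1 ≤ n) := by
    have hex : ∃ n, coin n z ∧ n0 + 1 ≤ n := exists_coin_int' _ (n0 + 1)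
    exact ⟨Nat.find hex, Nat.find_spec hex, fun n hn => Nat.find_min hex hn⟩
  refine ⟨(decide (Q = 0), decide (Q = 2 ^ (n0 + 6 - j) - 1), t (r (KK N) z / 2 ^ K)), ?_⟩
  intro i hi
  unfold blk
  split_ifs with hc hc2
  · obtain ⟨n1, hn1, hcn1⟩ := hc
    obtain ⟨M, hM, hM2⟩ := exists_least ⟨n1, hcn1⟩
    have hMn : M < n0 := by
      by_contra hge
      push Not at hge
      exact hM2 n1 (lt_of_lt_of_le hn1 hge) hcn1
    unfold xT
    rw [hcast i, Int.cast_natCast]
    rw [x0_eq hM hM2, x0_eq (N := M)]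
    · have h1 : KK M ≤ K := (KK_mono hMn.le).trans hKn
      rw [← Int.cast_natCast (i : ℕ), ← r_mod h1, ← r_mod h1, hri i hi, Int.cast_natCast, hri' i hi]
    · rw [← Int.cast_natCast (i : ℕ), hlow i hi M hMn]
      exact hM
    · intro n hn
      rw [← Int.cast_natCast (i : ℕ), hlow i hi n (hn.trans hMn)]
      exact hM2 n hn
  · push Not at hc
    unfold xT
    rw [hcast i, x0_eq (N := n0) ((hmid i hi).mpr hc2)]
    · rw [← r_mod hKn, hri i hi]
    · intro n hn
      rw [hlow i hi n hn]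
      exact hc n hn
  · push Not at hc
    unfold xT
    rw [hcast i]
    have hKN : K ≤ KK N := hKn1.trans (KK_mono hN2)
    rw [x0_eq (N := N)]
    · rw [(hnc i hi).r_high hKN, t_split K _ _ (r_lt _ _), hri i hi]
    · rw [(hnc i hi).coin_iff hKN]
      exact hN1
    · intro n hn
      rcases lt_trichotomy n n0 with h | h | h
      · rw [hlow i hi n h]
        exact hc n h
      · subst h
        rw [hmid i hi]
        exact hc2
      · have hn1 : n0 + 1 ≤ n := h
        rw [(hnc i hi).coin_iff (hKn1.trans (KK_mono hn1))]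
        intro hc'
        exact hN3 n hn ⟨hc', hn1⟩

theorem complexity_pow_le (n0 j : ℕ) (hj : j < n0 + 6) :
    complexity xT (2 ^ (KK n0 + j)) ≤ 64 * 2 ^ (KK n0 + j) := by
  classical
  set K := KK n0 + j with hK
  set f : (Fin (2 ^ K) × (Bool × Bool × Bool) × (Bool × Bool × Bool)) → (Fin (2 ^ K) → Bool) :=
    fun p i => if (p.1 : ℕ) + i < 2 ^ K then blk n0 j p.2.1 (p.1 + i)
      else blk n0 j p.2.2 (p.1 + i - 2 ^ K) with hf
  have hsub : {w : Fin (2 ^ K) → Bool | ∃ j : ℤ, ∀ i : Fin (2 ^ K), w i = xT (j + (i : ℕ))} ⊆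
      f '' Set.univ := by
    rintro w ⟨l, hl⟩
    obtain ⟨τ1, h1⟩ := block n0 j hj (l / 2 ^ K)
    obtain ⟨τ2, h2⟩ := block n0 j hj (l / 2 ^ K + 1)
    have hpos : (0 : ℤ) < 2 ^ K := by positivity
    have hs0 : 0 ≤ l % 2 ^ K := Int.emod_nonneg _ hpos.ne'
    have hs1 : l % 2 ^ K < 2 ^ K := Int.emod_lt_of_pos _ hpos
    obtain ⟨s, hs⟩ : ∃ s : ℕ, l % 2 ^ K = s := ⟨(l % 2 ^ K).toNat, (Int.toNat_of_nonneg hs0).symm⟩
    have hsK : s < 2 ^ K := by
      rw [hs] at hs1
      exact_mod_cast hs1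
    have hjj : l = l / 2 ^ K * 2 ^ K + s := by
      rw [← hs]
      exact (Int.ediv_mul_add_emod l (2 ^ K)).symm
    refine ⟨(⟨s, hsK⟩, τ1, τ2), trivial, ?_⟩
    funext i
    rw [hl i, hf]
    simp only
    rw [← hK] at h1 h2
    split_ifs with hi
    · rw [← h1 (s + i) hi]
      congr 1
      push_cast
      linarith
    · have hi2 := i.2
      have h4 : s + i - 2 ^ K < 2 ^ K := by omega
      rw [← h2 (s + i - 2 ^ K) h4]
      congr 1
      have h3 : ((s + i - 2 ^ K : ℕ) : ℤ) = (s : ℤ) + (i : ℕ) - 2 ^ K := by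
        rw [Nat.cast_sub (by omega)]
        push_cast
        ring
      rw [h3]
      linarith
  unfold complexity
  calc _ ≤ (f '' Set.univ).ncard := Set.ncard_le_ncard hsub (Set.toFinite _)
    _ ≤ (Set.univ : Set (Fin (2 ^ K) × (Bool × Bool × Bool) × (Bool × Bool × Bool))).ncard :=
        Set.ncard_image_le (Set.toFinite _)
    _ = 64 * 2 ^ K := by
      rw [Set.ncard_univ, Nat.card_eq_fintype_card]
      simp
      ring

theorem exists_level (K : ℕ) : ∃ n0 j, j < n0 + 6 ∧ K = KK n0 + j := by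
  induction K with
  | zero => exact ⟨0, 0, by omega, rfl⟩
  | succ K ih =>
    obtain ⟨n0, j, hj, hK⟩ := ih
    by_cases h : j + 1 < n0 + 6
    · exact ⟨n0, j + 1, h, by omega⟩
    · exact ⟨n0 + 1, 0, by omega, by rw [KK_succ]; omega⟩

theorem complexity_mono {m n : ℕ} (h : m ≤ n) : complexity xT m ≤ complexity xT n := by
  classical
  unfold complexity
  set g : (Fin n → Bool) → (Fin m → Bool) := fun w i => w (Fin.castLE h i) with hg
  have hsub : {w : Fin m → Bool | ∃ j : ℤ, ∀ i : Fin m, w i = xT (j + (i : ℕ))} ⊆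
      g '' {w : Fin n → Bool | ∃ j : ℤ, ∀ i : Fin n, w i = xT (j + (i : ℕ))} := by
    rintro w ⟨l, hl⟩
    refine ⟨fun i => xT (l + (i : ℕ)), ⟨l, fun i => rfl⟩, ?_⟩
    funext i
    rw [hl i]
    rfl
  exact (Set.ncard_le_ncard hsub (Set.toFinite _)).trans (Set.ncard_image_le (Set.toFinite _))

/-- `xT` has linear complexity. -/
theorem linear_complexity (n : ℕ) (hn : 1 ≤ n) : complexity xT n ≤ 128 * n := by
  obtain ⟨n0, j, hj, hK⟩ := exists_level (Nat.log 2 n + 1)
  have h1 : n ≤ 2 ^ (Nat.log 2 n + 1) := (Nat.lt_pow_succ_log_self (by norm_num) n).le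
  have h2 : 2 ^ Nat.log 2 n ≤ n := Nat.pow_log_le_self 2 (by omega)
  calc complexity xT n ≤ complexity xT (2 ^ (Nat.log 2 n + 1)) := complexity_mono h1
    _ ≤ 64 * 2 ^ (Nat.log 2 n + 1) := by
        rw [hK]
        exact complexity_pow_le n0 j hj
    _ = 128 * 2 ^ Nat.log 2 n := by ring
    _ ≤ 128 * n := Nat.mul_le_mul_left _ h2

end MP6420b1
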