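import Mathlib
import Pool.Agent.Lib.MP_6420b1_an.Symbolic

/-!
# MP_6420b1_an: Haar measure on the 2-adic integers
-/

open MeasureTheory Filter Topology

namespace MP6420b1

noncomputable instance : MeasurableSpace ℤ_[2] := borel _
instance : BorelSpace ℤ_[2] := ⟨rfl⟩

example : SecondCountableTopology ℤ_[2] := inferInstance
example : CompactSpace ℤ_[2] := inferInstance
example : IsTopologicalAddGroup ℤ_[2] := inferInstance

/-- normalised Haar measure on the 2-adic integers -/
noncomputable def haar : Measure ℤ_[2] := Measure.addHaarMeasure ⊤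

instance : Measure.IsAddHaarMeasure haar := by unfold haar; infer_instance

instance : IsProbabilityMeasure haar :=
  ⟨by
    have := Measure.addHaarMeasure_self (K₀ := (⊤ : TopologicalSpace.PositiveCompacts ℤ_[2]))
    simpa [haar] using this⟩

theorem isOpen_r (K a : ℕ) : IsOpen {z : ℤ_[2] | r K z = a} := by
  rw [Metric.isOpen_iff]
  intro z hz
  refine ⟨(2:ℝ) ^ (-(K:ℤ)), by positivity, ?_⟩
  intro w hw
  rw [Metric.mem_ball, dist_eq_norm] at hw
  have h1 : ‖w - z‖ ≤ ((2:ℕ):ℝ) ^ (-(K:ℤ)) := by
    push_cast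
    exact hw.le
  rw [PadicInt.norm_le_pow_iff_mem_span_pow, ← PadicInt.ker_toZModPow, RingHom.mem_ker,
    map_sub, sub_eq_zero] at h1
  simp only [Set.mem_ofPred_eq] at hz ⊢
  rw [← hz]
  unfold r
  rw [h1]

theorem measurable_r (K : ℕ) : Measurable (r K) := by
  apply measurable_to_countable'
  intro a
  exact (isOpen_r K a).measurableSet

/-- translates of `E` cover: lower bound for the measure -/
theorem measure_ge_of_cover {N : ℕ} {h : ℤ_[2]} {E : Set ℤ_[2]}
    (hc : ∀ z, ∃ i < N, z + (i : ℤ_[2]) * h ∈ E) : 1 ≤ N * haar E := by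
  have h1 : (Set.univ : Set ℤ_[2]) ⊆ ⋃ i ∈ Finset.range N, (fun z => z + (i : ℤ_[2]) * h) ⁻¹' E := by
    intro z _
    obtain ⟨i, hi, hz⟩ := hc z
    simp only [Set.mem_iUnion, Finset.mem_range]
    exact ⟨i, hi, hz⟩
  calc (1 : ENNReal) = haar Set.univ := by simp
    _ ≤ haar (⋃ i ∈ Finset.range N, (fun z => z + (i : ℤ_[2]) * h) ⁻¹' E) := measure_mono h1
    _ ≤ ∑ i ∈ Finset.range N, haar ((fun z => z + (i : ℤ_[2]) * h) ⁻¹' E) :=
        measure_biUnion_finset_le _ _
    _ = ∑ i ∈ Finset.range N, haar E := by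
        apply Finset.sum_congr rfl
        intro i _
        exact measure_preimage_add_right _ _ _
    _ = N * haar E := by simp

/-- translates of `E` are disjoint: upper bound for the measure -/
theorem measure_le_of_disjoint {N : ℕ} {h : ℤ_[2]} {E : Set ℤ_[2]} (hE : MeasurableSet E)
    (hd : ∀ i < N, ∀ j < N, i ≠ j → ∀ z, z + (i : ℤ_[2]) * h ∈ E → z + (j : ℤ_[2]) * h ∉ E) :
    N * haar E ≤ 1 := by
  calc (N * haar E : ENNReal) = ∑ i ∈ Finset.range N, haar E := by simp
    _ = ∑ i ∈ Finset.range N, haar ((fun z => z + (i : ℤ_[2]) * h) ⁻¹' E) := by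
        apply Finset.sum_congr rfl
        intro i _
        exact (measure_preimage_add_right _ _ _).symm
    _ = haar (⋃ i ∈ Finset.range N, (fun z => z + (i : ℤ_[2]) * h) ⁻¹' E) := by
        rw [measure_biUnion_finset]
        · intro i hi j hj hij
          rw [Function.onFun, Set.disjoint_left]
          intro z hz1 hz2
          simp only [Finset.coe_range, Set.mem_Iio] at hi hj
          exact hd i hi j hj hij z hz1 hz2
        · intro i _
          exact (measurable_add_const _) hE
    _ ≤ 1 := prob_le_one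

/-- continuity of translations in measure -/
theorem tendsto_translate {E : Set ℤ_[2]} (hE : MeasurableSet E) {h : ℕ → ℤ_[2]}
    (hh : Tendsto h atTop (𝓝 0)) :
    Tendsto (fun k => haar {z | ¬ (z + h k ∈ E ↔ z ∈ E)}) atTop (𝓝 0) := by
  have h0 := tendsto_measure_symmDiff_preimage_nhds_zero (μ := haar) (ν := haar)
    (l := atTop) (f := fun k => (⟨fun z => z + h k, continuous_add_const _⟩ : C(ℤ_[2], ℤ_[2])))
    (g := ⟨fun z => z, continuous_id⟩) (s := E) ?_ ?_ ?_ hE.nullMeasurableSet (measure_ne_top _ _)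
  · refine h0.congr fun k => ?_
    congr 1
    ext z
    simp only [Set.mem_symmDiff, Set.mem_preimage, ContinuousMap.coe_mk, Set.mem_ofPred_eq]
    tauto
  · rw [ContinuousMap.tendsto_iff_tendstoUniformly]
    rw [Metric.tendstoUniformly_iff]
    intro ε hε
    rw [Metric.tendsto_nhds] at hh
    filter_upwards [hh ε hε] with k hk z
    simp only [ContinuousMap.coe_mk]
    rw [dist_comm, dist_eq_norm]
    rw [dist_eq_norm] at hk
    simpa using hk
  · filter_upwards with k
    exact measurePreserving_add_right haar (h k)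
  · exact MeasurePreserving.id haar

theorem tendsto_two_pow : Tendsto (fun k : ℕ => (2 : ℤ_[2]) ^ k) atTop (𝓝 0) := by
  apply tendsto_pow_atTop_nhds_zero_of_norm_lt_one
  have := PadicInt.norm_p (p := 2)
  rw [show (2 : ℤ_[2]) = ((2 : ℕ) : ℤ_[2]) by norm_num, this]
  norm_num

/-- the odometer is ergodic -/
theorem ergodic_odometer : Ergodic (fun z : ℤ_[2] => 1 + z) haar := by
  have : DenseRange (fun n : ℤ => n • (1 : ℤ_[2])) := by
    have := PadicInt.denseRange_intCast (p := 2)
    convert this using 2 with n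
    simp
  exact ergodic_add_left_of_denseRange_zsmul this haar

end MP6420b1
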