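import Mathlib
import Pool.Agent.Lib.MP_6420b1_an.Haar

/-!
# MP_6420b1_an: measure estimates
-/

open MeasureTheory Filter Topology

namespace MP6420b1

/-- the `b` binary digits of `z` starting from position `a`, as a number -/
noncomputable def bits (a b : ℕ) (z : ℤ_[2]) : ℕ := r (a + b) z / 2 ^ a

theorem bits_lt (a b : ℕ) (z : ℤ_[2]) : bits a b z < 2 ^ b := by
  unfold bits
  rw [Nat.div_lt_iff_lt_mul (by positivity), ← pow_add, add_comm b a]
  exact r_lt _ _

theorem dig_eq_bits (n : ℕ) (z : ℤ_[2]) : dig n z = bits (KK n) (n + 6) z := rfl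

theorem bits_add (a b : ℕ) (z : ℤ_[2]) (i : ℕ) :
    bits a b (z + (i : ℤ_[2]) * 2 ^ a) = (bits a b z + i) % 2 ^ b := by
  unfold bits
  have h := r_add_nat (a + b) z (i * 2 ^ a)
  push_cast at h
  rw [h, pow_add, Nat.mod_mul_right_div_self, Nat.add_mul_div_right _ _ (by positivity)]

theorem bits_mod (a : ℕ) {b b' : ℕ} (h : b ≤ b') (z : ℤ_[2]) :
    bits a b' z % 2 ^ b = bits a b z := by
  unfold bits
  rw [← r_mod (by omega : a + b ≤ a + b') z, pow_add, Nat.mod_mul_right_div_self]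

theorem measurable_bits (a b : ℕ) : Measurable (bits a b) :=
  (measurable_of_countable (fun n : ℕ => n / 2 ^ a)).comp (measurable_r (a + b))

theorem measurableSet_bits (a b d : ℕ) : MeasurableSet {z | bits a b z = d} :=
  measurable_bits a b (measurableSet_singleton d)

theorem r_eq_bits (a b : ℕ) (z : ℤ_[2]) : r (a + b) z = 2 ^ a * bits a b z + r a z :=
  r_split (Nat.le_add_right a b) z

/-- upper bound for the measure of a cylinder -/
theorem measure_bits_le (a b d : ℕ) : haar {z | bits a b z = d} ≤ (2⁻¹ : ENNReal) ^ b := by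
  have h := measure_le_of_disjoint (N := 2 ^ b) (h := 2 ^ a) (measurableSet_bits a b d) (by
    intro i hi j hj hij z h1 h2
    simp only [Set.mem_ofPred_eq, bits_add] at h1 h2
    have h3 : (bits a b z + i) % 2 ^ b = (bits a b z + j) % 2 ^ b := h1.trans h2.symm
    have h4 : i ≡ j [MOD 2 ^ b] := Nat.ModEq.add_left_cancel' (bits a b z) h3
    exact hij (Nat.ModEq.eq_of_lt_of_lt h4 hi hj))
  push_cast at h
  rw [← ENNReal.inv_pow, ENNReal.le_inv_iff_mul_le, mul_comm]
  exact h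

/-- lower bound for the measure of a cylinder -/
theorem measure_bits_ge (a b d : ℕ) (hd : d < 2 ^ b) :
    1 ≤ ((2 ^ b : ℕ) : ENNReal) * haar {z | bits a b z = d} := by
  apply measure_ge_of_cover (h := 2 ^ a)
  intro z
  refine ⟨(d + (2 ^ b - bits a b z)) % 2 ^ b, Nat.mod_lt _ (by positivity), ?_⟩
  simp only [Set.mem_ofPred_eq, bits_add]
  have h1 := bits_lt a b z
  rw [Nat.add_mod_mod, show bits a b z + (d + (2 ^ b - bits a b z)) = d + 2 ^ b by omega,
    Nat.add_mod_right, Nat.mod_eq_of_lt hd]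

/-! ### Coincidences are rare -/

theorem measurableSet_coin (n : ℕ) : MeasurableSet {z | coin n z} := by
  have : {z | coin n z} = {z | bits (KK n) (n + 6) z = 0} ∪
      {z | bits (KK n) (n + 6) z = 2 ^ (n + 6) - 1} := by
    ext z
    simp [coin, dig_eq_bits]
  rw [this]
  exact (measurableSet_bits _ _ _).union (measurableSet_bits _ _ _)

theorem measure_coin_le (n : ℕ) : haar {z | coin n z} ≤ (2⁻¹ : ENNReal) ^ 5 * 2⁻¹ ^ n := by
  have : {z | coin n z} = {z | bits (KK n) (n + 6) z = 0} ∪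
      {z | bits (KK n) (n + 6) z = 2 ^ (n + 6) - 1} := by
    ext z
    simp [coin, dig_eq_bits]
  rw [this]
  refine (measure_union_le _ _).trans ?_
  refine (add_le_add (measure_bits_le _ _ _) (measure_bits_le _ _ _)).trans ?_
  have h1 : (2⁻¹ : ENNReal) ^ (n + 6) = 2⁻¹ * (2⁻¹ ^ 5 * 2⁻¹ ^ n) := by ring
  rw [h1, ← add_mul, ENNReal.inv_two_add_inv_two, one_mul]

/-- the set of points with a coincidence -/
def CO : Set ℤ_[2] := {z | ∃ n, coin n z}

theorem measurableSet_CO : MeasurableSet CO := by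
  have : CO = ⋃ n, {z | coin n z} := by ext z; simp [CO]
  rw [this]
  exact MeasurableSet.iUnion measurableSet_coin

theorem measure_CO_le : haar CO ≤ (16 : ENNReal)⁻¹ := by
  have : CO = ⋃ n, {z | coin n z} := by ext z; simp [CO]
  rw [this]
  refine (measure_iUnion_le _).trans ?_
  refine (ENNReal.tsum_le_tsum measure_coin_le).trans ?_
  rw [ENNReal.tsum_mul_left, ENNReal.tsum_geometric, ENNReal.one_sub_inv_two, inv_inv]
  rw [← ENNReal.inv_pow, show ((2:ENNReal) ^ 5) = 16 * 2 by norm_num]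
  rw [ENNReal.mul_inv (by simp) (by simp), mul_assoc, ENNReal.inv_mul_cancel (by simp) (by simp),
    mul_one]

/-! ### The cocycle -/

/-- `c (2^v) z = 0` when the bits `v, v+1` of `z` are `1, 0`. -/
theorem c_two_pow_of_bits {v : ℕ} {z : ℤ_[2]} (h : bits v 2 z = 1) :
    c ((2 ^ v : ℕ) : ℤ) z = false := by
  have h1 := r_eq_bits v 2 z
  rw [h] at h1
  have hlt := r_lt v z
  have h4 : 2 ^ (v + 2) = 4 * 2 ^ v := by ring
  have hnc : NoCarry (v + 2) ((2 ^ v : ℕ) : ℤ) z := by
    constructor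
    · positivity
    · have : r (v + 2) z + 2 ^ v < 2 ^ (v + 2) := by omega
      exact_mod_cast this
  rw [hnc.c_eq]
  unfold cc
  have h2 : r (v + 2) (z + (((2 ^ v : ℕ) : ℤ) : ℤ_[2])) = 2 ^ v * 2 + r v z := by
    have h3 := hnc.r_eq
    have : (r (v + 2) (z + (((2 ^ v : ℕ) : ℤ) : ℤ_[2])) : ℤ) = ((2 ^ v * 2 + r v z : ℕ) : ℤ) := by
      rw [h3, h1]
      push_cast
      ring
    exact_mod_cast this
  rw [h2, h1, t_split _ _ _ hlt, t_split _ _ _ hlt, t_one, t_two]
  cases t (r v z) <;> rfl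

/-- `c (2^v) z = 1` when the bit `v` of `z` is `0`. -/
theorem c_two_pow_of_bit_zero {v : ℕ} {z : ℤ_[2]} (h : bits v 1 z = 0) :
    c ((2 ^ v : ℕ) : ℤ) z = true := by
  have h1 := r_eq_bits v 1 z
  rw [h, mul_zero, zero_add] at h1
  have hlt := r_lt v z
  have h4 : 2 ^ (v + 1) = 2 * 2 ^ v := by ring
  have hnc : NoCarry (v + 1) ((2 ^ v : ℕ) : ℤ) z := by
    constructor
    · positivity
    · have : r (v + 1) z + 2 ^ v < 2 ^ (v + 1) := by omega
      exact_mod_cast this
  rw [hnc.c_eq]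
  unfold cc
  have h2 : r (v + 1) (z + (((2 ^ v : ℕ) : ℤ) : ℤ_[2])) = 2 ^ v * 1 + r v z := by
    have h3 := hnc.r_eq
    have : (r (v + 1) (z + (((2 ^ v : ℕ) : ℤ) : ℤ_[2])) : ℤ) = ((2 ^ v * 1 + r v z : ℕ) : ℤ) := by
      rw [h3, h1]
      push_cast
      ring
    exact_mod_cast this
  rw [h2, h1, t_split _ _ _ hlt, t_one]
  cases t (r v z) <;> rfl

theorem measurable_cc (K : ℕ) (m : ℤ) : Measurable (cc K m) := by
  have h1 : Measurable fun z : ℤ_[2] => t (r K (z + m)) :=
    (measurable_of_countable t).comp ((measurable_r K).comp (measurable_add_const _))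
  have h2 : Measurable fun z : ℤ_[2] => t (r K z) :=
    (measurable_of_countable t).comp (measurable_r K)
  exact (measurable_of_countable (fun p : Bool × Bool => xor p.1 p.2)).comp (h1.prodMk h2)

theorem measurableSet_c (m : ℤ) : MeasurableSet {z | c m z = true} := by
  have : {z | c m z = true} = ⋃ N : ℕ, ⋂ K : ℕ, ⋂ (_ : N ≤ K), {z | cc K m z = true} := by
    ext z
    simp only [Set.mem_ofPred_eq, Set.mem_iUnion, Set.mem_iInter]
    rw [c_iff, eventually_atTop]
  rw [this]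
  refine MeasurableSet.iUnion fun N => MeasurableSet.iInter fun K => MeasurableSet.iInter fun _ => ?_
  exact measurable_cc K m (measurableSet_singleton true)

theorem measurable_c (m : ℤ) : Measurable (c m) := measurable_to_bool (measurableSet_c m)

theorem ae_nonInt : ∀ᵐ z ∂haar, NonInt z := by
  have h1 : (Set.range fun m : ℤ => (m : ℤ_[2])).Countable := Set.countable_range _
  have h2 : ∀ z : ℤ_[2], haar {z} = 0 := by
    intro z
    by_contra hne
    have hb : ∀ K : ℕ, haar {z} ≤ (2⁻¹ : ENNReal) ^ K := by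
      intro K
      refine le_trans (measure_mono ?_) (measure_bits_le 0 K (bits 0 K z))
      intro w hw
      simp only [Set.mem_singleton_iff] at hw
      subst hw
      rfl
    have ht : Tendsto (fun K : ℕ => (2⁻¹ : ENNReal) ^ K) atTop (𝓝 0) :=
      ENNReal.tendsto_pow_atTop_nhds_zero_of_lt_one (by simp)
    have := ge_of_tendsto' ht hb
    exact hne (le_antisymm this bot_le)
  have h3 : haar (Set.range fun m : ℤ => (m : ℤ_[2])) = 0 := by
    rw [← Set.biUnion_of_singleton (Set.range fun m : ℤ => (m : ℤ_[2]))]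
    rw [measure_biUnion_null_iff h1]
    intro z _
    exact h2 z
  rw [ae_iff]
  refine measure_mono_null ?_ h3
  intro z hz
  simp only [Set.mem_ofPred_eq, NonInt, not_forall, not_not, ne_eq] at hz
  obtain ⟨m, hm⟩ := hz
  exact ⟨m, hm.symm⟩

/-- `1/4` of the points have `c m z = 1` (`m ≥ 1`). -/
theorem measure_c_ge (m : ℕ) (hm : 1 ≤ m) : 1 ≤ 4 * haar {z | c m z = true} := by
  obtain ⟨v, u, hu, hmv⟩ := Nat.exists_eq_two_pow_mul_odd (by omega : m ≠ 0)
  set E : Set ℤ_[2] := {z | bits v 2 (z + (m : ℤ_[2])) = 1} with hE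
  have hEm : MeasurableSet E :=
    (measurable_add_const (m : ℤ_[2])) (measurableSet_bits v 2 1)
  have hE1 : 1 ≤ 4 * haar E := by
    have h1 := measure_bits_ge v 2 1 (by norm_num)
    have h2 : haar E = haar {z | bits v 2 z = 1} :=
      measure_preimage_add_right haar (m : ℤ_[2]) {z | bits v 2 z = 1}
    rw [h2]
    simpa using h1
  have hbit : ∀ z ∈ E, bits v 1 z = 0 := by
    intro z hz
    have h1 : bits v 1 (z + (m : ℤ_[2])) = 1 := by
      rw [← bits_mod v (by norm_num : 1 ≤ 2), hz]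
      norm_num
    rw [hmv] at h1
    push_cast at h1
    rw [mul_comm, bits_add] at h1
    have h2 := bits_lt v 1 z
    obtain ⟨k, hk⟩ := hu
    omega
  -- disjointness
  have hdisj : ∀ z, z ∈ E → z + (2:ℤ_[2]) ^ v ∉ E := by
    intro z hz hz2
    have h1 : bits v 2 (z + (2:ℤ_[2]) ^ v + (m : ℤ_[2])) = 1 := hz2
    have h2 := bits_add v 2 (z + (m : ℤ_[2])) 1
    rw [show z + (m : ℤ_[2]) + ((1:ℕ) : ℤ_[2]) * 2 ^ v = z + (2:ℤ_[2]) ^ v + (m : ℤ_[2]) by
      push_cast; ring, h1, hz] at h2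
    norm_num at h2
  -- the cocycle changes
  have hc : ∀ z ∈ E, NonInt z → c m (z + (2:ℤ_[2]) ^ v) = !(c m z) := by
    intro z hz hni
    have h1 := c_add hni ((2 ^ v : ℕ) : ℤ) (m : ℤ)
    have h2 := c_add hni (m : ℤ) ((2 ^ v : ℕ) : ℤ)
    rw [add_comm] at h2
    rw [h1, c_two_pow_of_bit_zero (hbit z hz)] at h2
    have h3 : c ((2 ^ v : ℕ) : ℤ) (z + ((m : ℤ) : ℤ_[2])) = false := by
      apply c_two_pow_of_bits
      rw [Int.cast_natCast]
      exact hz
    rw [h3] at h2
    have h4 : z + (((2 ^ v : ℕ) : ℤ) : ℤ_[2]) = z + (2:ℤ_[2]) ^ v := by push_cast; ring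
    rw [h4] at h2
    cases h5 : c (m : ℤ) (z + (2:ℤ_[2]) ^ v) <;> cases h6 : c (m : ℤ) z <;> rw [h5, h6] at h2 <;>
      simp at h2 ⊢
  have key : haar E ≤ haar {z | c m z = true} := by
    -- E = (E ∩ {c = 1}) ∪ (E ∩ {c = 0})
    set A1 : Set ℤ_[2] := E ∩ {z | c m z = true} with hA1
    set A2 : Set ℤ_[2] := E ∩ {z | c m (z + (2:ℤ_[2]) ^ v) = true} with hA2
    set A3 : Set ℤ_[2] := {z | z + (-(2:ℤ_[2]) ^ v) ∈ A2} with hA3
    have hA2m : MeasurableSet A2 :=
      hEm.inter ((measurable_add_const ((2:ℤ_[2]) ^ v)) (measurableSet_c m))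
    have hA3m : MeasurableSet A3 := (measurable_add_const (-(2:ℤ_[2]) ^ v)) hA2m
    have h23 : haar A3 = haar A2 := measure_preimage_add_right haar (-(2:ℤ_[2]) ^ v) A2
    have hcov : haar E ≤ haar A1 + haar A2 := by
      refine le_trans (measure_mono_ae ?_) (measure_union_le A1 A2)
      filter_upwards [ae_nonInt] with z hni hz
      by_cases h : c m z = true
      · left
        exact ⟨hz, h⟩
      · right
        refine ⟨hz, ?_⟩
        simp only [Set.mem_ofPred_eq]
        rw [hc z hz hni]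
        simpa using h
    have hdj : Disjoint A1 A3 := by
      rw [Set.disjoint_left]
      rintro z ⟨hz, _⟩ ⟨hz2, _⟩
      apply hdisj _ hz2
      have : z + -(2:ℤ_[2]) ^ v + 2 ^ v = z := by ring
      rw [this]
      exact hz
    calc haar E ≤ haar A1 + haar A3 := by rw [h23]; exact hcov
      _ = haar (A1 ∪ A3) := (measure_union hdj hA3m).symm
      _ ≤ haar {z | c m z = true} := by
        apply measure_mono
        rintro z (⟨_, hz⟩ | ⟨_, hz⟩)
        · exact hz
        · simp only [Set.mem_ofPred_eq] at hz ⊢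
          have : z + -(2:ℤ_[2]) ^ v + 2 ^ v = z := by ring
          rw [this] at hz
          exact hz
  exact hE1.trans (by gcongr)

/-- the error term in the partial rigidity estimate -/
noncomputable def err (B : Set ℤ_[2]) (k : ℕ) : ENNReal :=
  (∑ i ∈ Finset.range 4, haar {z | ¬ (z + (i : ℤ_[2]) * 2 ^ k ∈ B ↔ z ∈ B)}) +
    4 * haar {z | ¬ (z + (2:ℤ_[2]) ^ k ∈ B ↔ z ∈ B)}

theorem tendsto_err {B : Set ℤ_[2]} (hB : MeasurableSet B) : Tendsto (err B) atTop (𝓝 0) := by
  have h1 : Tendsto (fun k => ∑ i ∈ Finset.range 4,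
      haar {z | ¬ (z + (i : ℤ_[2]) * 2 ^ k ∈ B ↔ z ∈ B)}) atTop
      (𝓝 (∑ i ∈ Finset.range 4, (0 : ENNReal))) := by
    apply tendsto_finsetSum
    intro i _
    apply tendsto_translate hB (h := fun k => (i : ℤ_[2]) * 2 ^ k)
    have := tendsto_two_pow.const_mul (i : ℤ_[2])
    simpa using this
  have h2 := ENNReal.Tendsto.const_mul (a := 4) (tendsto_translate hB tendsto_two_pow)
    (Or.inr (by simp))
  have h3 := h1.add h2
  rw [mul_zero, Finset.sum_const_zero, add_zero] at h3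
  exact h3

/-- the key estimate for partial rigidity -/
theorem measure_le_return (B : Set ℤ_[2]) (k : ℕ) :
    haar B ≤ 4 * haar {z | z ∈ B ∧ bits k 2 z = 1 ∧ z + (2:ℤ_[2]) ^ k ∈ B} + err B k := by
  set D : ℕ → Set ℤ_[2] := fun i => {z | ¬ (z + (i : ℤ_[2]) * 2 ^ k ∈ B ↔ z ∈ B)} with hD
  set D1 : Set ℤ_[2] := {z | ¬ (z + (2:ℤ_[2]) ^ k ∈ B ↔ z ∈ B)} with hD1
  set F : Set ℤ_[2] := {z | bits k 2 z = 1} with hF
  set G : Set ℤ_[2] := {z | z ∈ B ∧ bits k 2 z = 1 ∧ z + (2:ℤ_[2]) ^ k ∈ B} with hG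
  have h1 : B ⊆ ⋃ i ∈ Finset.range 4, ((fun z => z + (i : ℤ_[2]) * 2 ^ k) ⁻¹' (B ∩ F) ∪ D i) := by
    intro z hz
    have hlt := bits_lt k 2 z
    simp only [Set.mem_iUnion, Finset.mem_range]
    refine ⟨(5 - bits k 2 z) % 4, Nat.mod_lt _ (by norm_num), ?_⟩
    by_cases hzB : z + (((5 - bits k 2 z) % 4 : ℕ) : ℤ_[2]) * 2 ^ k ∈ B
    · left
      refine ⟨hzB, ?_⟩
      simp only [hF, Set.mem_ofPred_eq, bits_add]
      norm_num at hlt ⊢
      omega
    · right
      simp only [hD, Set.mem_ofPred_eq]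
      tauto
  have h2 : haar (B ∩ F) ≤ haar G + haar D1 := by
    refine le_trans (measure_mono ?_) (measure_union_le G D1)
    rintro z ⟨hz1, hz2⟩
    by_cases h : z + (2:ℤ_[2]) ^ k ∈ B
    · left
      exact ⟨hz1, hz2, h⟩
    · right
      simp only [hD1, Set.mem_ofPred_eq]
      tauto
  calc haar B ≤ haar (⋃ i ∈ Finset.range 4,
        ((fun z => z + (i : ℤ_[2]) * 2 ^ k) ⁻¹' (B ∩ F) ∪ D i)) := measure_mono h1
    _ ≤ ∑ i ∈ Finset.range 4, haar ((fun z => z + (i : ℤ_[2]) * 2 ^ k) ⁻¹' (B ∩ F) ∪ D i) :=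
        measure_biUnion_finset_le _ _
    _ ≤ ∑ i ∈ Finset.range 4, (haar (B ∩ F) + haar (D i)) := by
        apply Finset.sum_le_sum
        intro i _
        exact (measure_union_le _ _).trans (add_le_add
          (measure_preimage_add_right haar ((i : ℤ_[2]) * 2 ^ k) (B ∩ F)).le le_rfl)
    _ = 4 * haar (B ∩ F) + ∑ i ∈ Finset.range 4, haar (D i) := by
        rw [Finset.sum_add_distrib]
        simp
    _ ≤ 4 * (haar G + haar D1) + ∑ i ∈ Finset.range 4, haar (D i) := by gcongr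
    _ = 4 * haar G + err B k := by
        unfold err
        rw [mul_add, add_assoc, add_comm (4 * haar D1)]

end MP6420b1
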