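import Mathlib
import Pool.Agent.Lib.MP_6420b1_an.Estimates

/-!
# MP_6420b1_an: the Morse skew product over the odometer
-/

open MeasureTheory Filter Topology

namespace MP6420b1

/-- Haar measure times the uniform measure on `{0,1}` -/
noncomputable def mΩ : Measure (ℤ_[2] × Bool) :=
  (2⁻¹ : ENNReal) • (haar.map (fun z => (z, false)) + haar.map (fun z => (z, true)))

theorem mΩ_apply {A : Set (ℤ_[2] × Bool)} (hA : MeasurableSet A) :
    mΩ A = 2⁻¹ * (haar {z | (z, false) ∈ A} + haar {z | (z, true) ∈ A}) := by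
  unfold mΩ
  rw [Measure.smul_apply, Measure.add_apply, Measure.map_apply measurable_prodMk_right hA,
    Measure.map_apply measurable_prodMk_right hA]
  rfl

instance : IsProbabilityMeasure mΩ :=
  ⟨by
    rw [mΩ_apply MeasurableSet.univ]
    simp only [Set.mem_univ, Set.ofPred_true, measure_univ]
    rw [mul_add, mul_one, ENNReal.inv_two_add_inv_two]⟩

theorem measurableSet_slice {A : Set (ℤ_[2] × Bool)} (hA : MeasurableSet A) (ε : Bool) :
    MeasurableSet {z | (z, ε) ∈ A} :=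
  (measurable_prodMk_right (y := ε)) hA

theorem ae_mΩ_iff {p : ℤ_[2] × Bool → Prop} (hp : MeasurableSet {ω | p ω}) :
    (∀ᵐ ω ∂mΩ, p ω) ↔ ∀ᵐ z ∂haar, ∀ ε, p (z, ε) := by
  rw [ae_iff, mΩ_apply (A := {ω | ¬ p ω}) hp.compl]
  simp only [mul_eq_zero, ENNReal.inv_eq_zero, ENNReal.ofNat_ne_top, false_or, add_eq_zero,
    Set.mem_ofPred_eq]
  rw [← ae_iff (p := fun z => p (z, false)), ← ae_iff (p := fun z => p (z, true))]
  rw [← eventually_and]
  simp [Bool.forall_bool]

/-- the skew product `T^m` -/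
noncomputable def TT (m : ℤ) (ω : ℤ_[2] × Bool) : ℤ_[2] × Bool :=
  (ω.1 + m, xor ω.2 (c m ω.1))

theorem measurable_TT (m : ℤ) : Measurable (TT m) := by
  refine Measurable.prodMk ((measurable_add_const _).comp measurable_fst) ?_
  exact (measurable_of_countable (fun p : Bool × Bool => xor p.1 p.2)).comp
    (measurable_snd.prodMk ((measurable_c m).comp measurable_fst))

theorem map_TT (m : ℤ) : mΩ.map (TT m) = mΩ := by
  ext A hA
  rw [Measure.map_apply (measurable_TT m) hA, mΩ_apply ((measurable_TT m) hA), mΩ_apply hA]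
  congr 1
  have h : ∀ ε, haar {z | (z, ε) ∈ A} = haar {z | (z + (m : ℤ_[2]), ε) ∈ A} := fun ε =>
    (measure_preimage_add_right haar (m : ℤ_[2]) {z | (z, ε) ∈ A}).symm
  rw [h false, h true]
  have hCm := measurableSet_c m
  have hA' : ∀ ε, MeasurableSet {z | (z + (m : ℤ_[2]), ε) ∈ A} := fun ε =>
    (measurable_add_const (m : ℤ_[2])) (measurableSet_slice hA ε)
  have e0 : ∀ B : Set ℤ_[2], haar B = haar (B ∩ {z | c m z = true}) +
      haar (B \ {z | c m z = true}) := fun B => (measure_inter_add_sdiff B hCm).symm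
  rw [e0 {z | (z, false) ∈ TT m ⁻¹' A}, e0 {z | (z, true) ∈ TT m ⁻¹' A},
    e0 {z | (z + (m : ℤ_[2]), false) ∈ A}, e0 {z | (z + (m : ℤ_[2]), true) ∈ A}]
  have s1 : {z | (z, false) ∈ TT m ⁻¹' A} ∩ {z | c m z = true} =
      {z | (z + (m : ℤ_[2]), true) ∈ A} ∩ {z | c m z = true} := by
    ext z
    simp only [TT, Set.mem_inter_iff, Set.mem_ofPred_eq, Set.mem_preimage]
    constructor <;> rintro ⟨h1, h2⟩ <;> refine ⟨?_, h2⟩ <;> simpa [h2] using h1
  have s2 : {z | (z, true) ∈ TT m ⁻¹' A} ∩ {z | c m z = true} =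
      {z | (z + (m : ℤ_[2]), false) ∈ A} ∩ {z | c m z = true} := by
    ext z
    simp only [TT, Set.mem_inter_iff, Set.mem_ofPred_eq, Set.mem_preimage]
    constructor <;> rintro ⟨h1, h2⟩ <;> refine ⟨?_, h2⟩ <;> simpa [h2] using h1
  have s3 : {z | (z, false) ∈ TT m ⁻¹' A} \ {z | c m z = true} =
      {z | (z + (m : ℤ_[2]), false) ∈ A} \ {z | c m z = true} := by
    ext z
    simp only [TT, Set.mem_sdiff, Set.mem_ofPred_eq, Set.mem_preimage, Bool.not_eq_true]
    constructor <;> rintro ⟨h1, h2⟩ <;> refine ⟨?_, h2⟩ <;> simpa [h2] using h1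
  have s4 : {z | (z, true) ∈ TT m ⁻¹' A} \ {z | c m z = true} =
      {z | (z + (m : ℤ_[2]), true) ∈ A} \ {z | c m z = true} := by
    ext z
    simp only [TT, Set.mem_sdiff, Set.mem_ofPred_eq, Set.mem_preimage, Bool.not_eq_true]
    constructor <;> rintro ⟨h1, h2⟩ <;> refine ⟨?_, h2⟩ <;> simpa [h2] using h1
  rw [s1, s2, s3, s4]
  ring

theorem dichotomy {A : Set (ℤ_[2] × Bool)} (hA : MeasurableSet A)
    (hinv : ∀ᵐ z ∂haar, ∀ ε, ((z + 1, xor ε (c 1 z)) ∈ A ↔ (z, ε) ∈ A)) :
    (∀ᵐ z ∂haar, ∀ ε, (z, ε) ∈ A) ∨ (∀ᵐ z ∂haar, ∀ ε, (z, ε) ∉ A) := by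
  set I : Set ℤ_[2] := {z | (z, false) ∈ A ∧ (z, true) ∈ A} with hI
  set U : Set ℤ_[2] := {z | (z, false) ∈ A ∨ (z, true) ∈ A} with hU
  have hIm : MeasurableSet I := (measurableSet_slice hA false).inter (measurableSet_slice hA true)
  have hUm : MeasurableSet U := (measurableSet_slice hA false).union (measurableSet_slice hA true)
  have hinvI : (fun z => 1 + z) ⁻¹' I =ᵐ[haar] I := by
    filter_upwards [hinv] with z hz
    have h0 := hz false
    have h1 := hz true
    apply propext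
    change ((1 + z, false) ∈ A ∧ (1 + z, true) ∈ A) ↔ ((z, false) ∈ A ∧ (z, true) ∈ A)
    rw [add_comm 1 z, ← h0, ← h1]
    cases c 1 z <;> simp [and_comm]
  have hinvU : (fun z => 1 + z) ⁻¹' U =ᵐ[haar] U := by
    filter_upwards [hinv] with z hz
    have h0 := hz false
    have h1 := hz true
    apply propext
    change ((1 + z, false) ∈ A ∨ (1 + z, true) ∈ A) ↔ ((z, false) ∈ A ∨ (z, true) ∈ A)
    rw [add_comm 1 z, ← h0, ← h1]
    cases c 1 z <;> simp [or_comm]
  rcases ergodic_odometer.quasiErgodic.ae_mem_or_ae_notMem₀ hIm.nullMeasurableSet hinvI with h | hI0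
  · left
    filter_upwards [h] with z hz ε
    cases ε
    · exact hz.1
    · exact hz.2
  rcases ergodic_odometer.quasiErgodic.ae_mem_or_ae_notMem₀ hUm.nullMeasurableSet hinvU with hU0 | h
  swap
  · right
    filter_upwards [h] with z hz ε hε
    apply hz
    cases ε
    · exact Or.inl hε
    · exact Or.inr hε
  exfalso
  -- `b z := (z, false) ∈ A` satisfies `b (z + n) = b z + c n z`
  set B : Set ℤ_[2] := {z | (z, false) ∈ A} with hB
  have hBm : MeasurableSet B := measurableSet_slice hA false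
  have hstep : ∀ᵐ z ∂haar, (z + 1 ∈ B ↔ (z ∈ B ↔ c 1 z = false)) := by
    filter_upwards [hinv, hI0, hU0] with z hz hzI hzU
    have h0 := hz false
    have h1 := hz true
    simp only [hI, hU, Set.mem_ofPred_eq] at hzI hzU
    simp only [hB, Set.mem_ofPred_eq]
    cases hc : c 1 z
    · rw [hc] at h0 h1
      simp only [Bool.xor_false] at h0 h1
      tauto
    · rw [hc] at h0 h1
      simp only [Bool.xor_true, Bool.not_false, Bool.not_true] at h0 h1
      simp only [Bool.true_eq_false, iff_false]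
      tauto
  have hall : ∀ᵐ z ∂haar, ∀ n : ℕ, (z + (n : ℤ_[2]) + 1 ∈ B ↔
      (z + (n : ℤ_[2]) ∈ B ↔ c 1 (z + (n : ℤ_[2])) = false)) := by
    rw [ae_all_iff]
    intro n
    have h1 := (measurePreserving_add_right haar (n : ℤ_[2])).quasiMeasurePreserving.ae
      (p := fun w : ℤ_[2] => (w + 1 ∈ B ↔ (w ∈ B ↔ c 1 w = false))) hstep
    exact h1
  have hn : ∀ᵐ z ∂haar, ∀ n : ℕ, (z + (n : ℤ_[2]) ∈ B ↔ (z ∈ B ↔ c n z = false)) := by
    filter_upwards [hall, ae_nonInt] with z hz hni n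
    induction n with
    | zero =>
      have : c 0 z = false := c_zero z
      simp [this]
    | succ n ih =>
      have h1 := hz n
      have h2 : c ((n + 1 : ℕ) : ℤ) z = xor (c n z) (c 1 (z + n)) := by
        have := c_add hni (n : ℤ) 1
        rw [Int.cast_natCast] at this
        rw [← this]
        norm_num
      rw [h2]
      have h3 : z + ((n + 1 : ℕ) : ℤ_[2]) = z + n + 1 := by push_cast; ring
      rw [h3, h1, ih]
      cases c (n : ℤ) z <;> cases c 1 (z + n) <;> simp
  -- the contradiction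
  have hge : ∀ k : ℕ, (1 : ENNReal) ≤ 2 * haar {z | ¬ (z + (2 : ℤ_[2]) ^ k ∈ B ↔ z ∈ B)} := by
    intro k
    have h1 := measure_bits_ge k 1 0 (by norm_num)
    have h2 : haar {z | bits k 1 z = 0} ≤ haar {z | ¬ (z + (2 : ℤ_[2]) ^ k ∈ B ↔ z ∈ B)} := by
      apply measure_mono_ae
      filter_upwards [hn] with z hz hb
      have h3 := hz (2 ^ k)
      rw [c_two_pow_of_bit_zero hb] at h3
      push_cast at h3
      change ¬ (z + (2 : ℤ_[2]) ^ k ∈ B ↔ z ∈ B)
      rw [h3]
      simp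
    calc (1 : ENNReal) ≤ 2 * haar {z | bits k 1 z = 0} := by simpa using h1
      _ ≤ _ := by gcongr
  have hlim := ENNReal.Tendsto.const_mul (a := 2) (tendsto_translate hBm tendsto_two_pow)
    (Or.inr (by simp))
  rw [mul_zero] at hlim
  have := ge_of_tendsto' hlim hge
  simp at this

end MP6420b1
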