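import Mathlib
import Pool.Agent.Lib.MP_6420b1_an.System

/-!
# MP_6420b1_an: the invariant measure of the Toeplitz system
-/

open MeasureTheory Filter Topology

namespace MP6420b1

/-! ### Coding -/

theorem measurable_x0 : Measurable (fun p : ℤ_[2] × Bool => x0 p.1 p.2) := by
  apply measurable_to_bool
  have hco : ∀ n, MeasurableSet {p : ℤ_[2] × Bool | coin n p.1} := fun n =>
    measurable_fst (measurableSet_coin n)
  have h : (fun p : ℤ_[2] × Bool => x0 p.1 p.2) ⁻¹' {true} =
      (⋃ N, ({p : ℤ_[2] × Bool | coin N p.1} ∩ (⋂ n, ⋂ (_ : n < N), {p | coin n p.1}ᶜ)) ∩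
        {p | t (r (KK N) p.1) = true}) ∪
      ((⋂ n, {p : ℤ_[2] × Bool | coin n p.1}ᶜ) ∩ {p | p.2 = true}) := by
    ext p
    simp only [Set.mem_preimage, Set.mem_singleton_iff, x0_iff, Set.mem_union, Set.mem_iUnion,
      Set.mem_inter_iff, Set.mem_iInter, Set.mem_compl_iff, Set.mem_ofPred_eq, and_assoc]
  rw [h]
  refine MeasurableSet.union (MeasurableSet.iUnion fun N => ?_) ?_
  · refine ((hco N).inter (MeasurableSet.iInter fun n => MeasurableSet.iInter fun _ =>
      (hco n).compl)).inter ?_
    exact ((measurable_of_countable t).comp ((measurable_r (KK N)).comp measurable_fst))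
      (measurableSet_singleton true)
  · exact (MeasurableSet.iInter fun n => (hco n).compl).inter
      (measurable_snd (measurableSet_singleton true))

theorem PI_apply (ω : ℤ_[2] × Bool) (m : ℤ) : PI ω m = x0 (TT m ω).1 (TT m ω).2 := rfl

theorem measurable_PI : Measurable PI := by
  rw [measurable_pi_iff]
  intro m
  have e : (fun ω => PI ω m) = (fun p : ℤ_[2] × Bool => x0 p.1 p.2) ∘ TT m := by
    funext ω
    exact PI_apply ω m
  rw [e]
  exact measurable_x0.comp (measurable_TT m)

theorem xT_mem : xT ∈ orbitClosure xT := by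
  apply subset_closure
  exact ⟨0, by funext n; simp⟩

open Classical in
/-- coding map into the Toeplitz system -/
noncomputable def Pi (ω : ℤ_[2] × Bool) : orbitClosure xT :=
  ⟨if PI ω ∈ orbitClosure xT then PI ω else xT, by
    split_ifs with h
    · exact h
    · exact xT_mem⟩

theorem isClosed_orbitClosure : IsClosed (orbitClosure xT) := isClosed_closure

theorem measurable_Pi : Measurable Pi := by
  unfold Pi
  apply Measurable.subtype_mk
  apply Measurable.ite
  · exact measurable_PI isClosed_orbitClosure.measurableSet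
  · exact measurable_PI
  · exact measurable_const

theorem Pi_val {z : ℤ_[2]} (hz : NonInt z) (ε : Bool) : (Pi (z, ε)).1 = PI (z, ε) := by
  unfold Pi
  simp [PI_mem hz ε]

theorem iterate_shift_val (n : ℕ) : ∀ (y : orbitClosure xT) (i : ℤ),
    ((orbitShift xT)^[n] y).1 i = y.1 (i + n) := by
  induction n with
  | zero => intro y i; simp
  | succ n ih =>
    intro y i
    rw [Function.iterate_succ_apply, ih]
    simp only [orbitShift, shift]
    push_cast
    ring_nf

theorem PI_TT {z : ℤ_[2]} (hz : NonInt z) (ε : Bool) (n i : ℤ) :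
    PI (TT n (z, ε)) i = PI (z, ε) (i + n) := by
  simp only [PI, TT]
  rw [add_comm i n, c_add hz, Int.cast_add, ← add_assoc, Bool.xor_assoc]

theorem Pi_TT {z : ℤ_[2]} (hz : NonInt z) (ε : Bool) (n : ℕ) :
    (orbitShift xT)^[n] (Pi (z, ε)) = Pi (TT n (z, ε)) := by
  apply Subtype.ext
  funext i
  rw [iterate_shift_val, Pi_val hz]
  have h : (TT n (z, ε)) = ((TT n (z, ε)).1, (TT n (z, ε)).2) := rfl
  have hni : NonInt (TT n (z, ε)).1 := hz.add n
  rw [h, Pi_val hni, ← h, PI_TT hz]

/-- the invariant measure -/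
noncomputable def μT : Measure (orbitClosure xT) := mΩ.map Pi

instance : IsProbabilityMeasure μT := Measure.isProbabilityMeasure_map measurable_Pi.aemeasurable

theorem measurable_orbitShift : Measurable (orbitShift xT) := by
  unfold orbitShift
  apply Measurable.subtype_mk
  have : Measurable (shift : (ℤ → Bool) → (ℤ → Bool)) := by
    rw [measurable_pi_iff]
    intro n
    exact measurable_pi_apply (n + 1)
  exact this.comp measurable_subtype_coe

theorem ae_mΩ_of_ae {p : ℤ_[2] × Bool → Prop} (h : ∀ᵐ z ∂haar, ∀ ε, p (z, ε)) :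
    ∀ᵐ ω ∂mΩ, p ω := by
  have h1 : ∀ ε : Bool, ∀ᵐ ω ∂(haar.map (fun z : ℤ_[2] => (z, ε))), p ω := by
    intro ε
    have h2 : ∀ᵐ z ∂haar, p (z, ε) := h.mono fun z hz => hz ε
    rw [ae_iff] at h2 ⊢
    obtain ⟨N, hN1, hN2, hN3⟩ := exists_measurable_superset_of_null h2
    refine measure_mono_null (t := (N ×ˢ Set.univ) ∪ {ω | ω.2 ≠ ε}) ?_ ?_
    · rintro ⟨z, e⟩ hz
      by_cases he : e = ε
      · subst he
        left
        exact ⟨hN1 hz, trivial⟩
      · right
        exact he
    · rw [Measure.map_apply measurable_prodMk_right]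
      · convert hN3 using 2
        ext z
        simp
      · exact (hN2.prod MeasurableSet.univ).union
          (measurable_snd (measurableSet_singleton ε).compl)
  unfold mΩ
  have h3 : ∀ᵐ ω ∂(haar.map (fun z : ℤ_[2] => (z, false)) + haar.map (fun z => (z, true))), p ω := by
    rw [ae_add_measure_iff]
    exact ⟨h1 false, h1 true⟩
  exact Measure.ae_smul_measure h3 _

theorem ae_nonInt_Ω : ∀ᵐ ω ∂mΩ, NonInt ω.1 :=
  ae_mΩ_of_ae (ae_nonInt.mono fun _ hz _ => hz)

theorem shift_Pi_ae (n : ℕ) : (orbitShift xT)^[n] ∘ Pi =ᵐ[mΩ] Pi ∘ TT n := by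
  filter_upwards [ae_nonInt_Ω] with ω hω
  exact Pi_TT hω ω.2 n

theorem measurePreserving_iterate (n : ℕ) :
    MeasurePreserving ((orbitShift xT)^[n]) μT μT := by
  have hm : Measurable ((orbitShift xT)^[n]) := measurable_orbitShift.iterate n
  refine ⟨hm, ?_⟩
  unfold μT
  rw [Measure.map_map hm measurable_Pi, Measure.map_congr (shift_Pi_ae n),
    ← Measure.map_map measurable_Pi (measurable_TT n), map_TT]

theorem ergodic_μT : Ergodic (orbitShift xT) μT := by
  refine { toMeasurePreserving := ?_, toPreErgodic := ?_ }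
  · have := measurePreserving_iterate 1
    simpa using this
  · constructor
    intro s hs hinv
    rw [eventuallyConst_set]
    have hA : MeasurableSet (Pi ⁻¹' s) := measurable_Pi hs
    have hd := dichotomy (A := Pi ⁻¹' s) hA (by
      filter_upwards [ae_nonInt] with z hz ε
      have h1 := Pi_TT hz ε 1
      have h2 : TT ((1 : ℕ) : ℤ) (z, ε) = (z + 1, xor ε (c 1 z)) := by simp [TT]
      rw [h2] at h1
      simp only [Set.mem_preimage]
      rw [← h1, Function.iterate_one]
      conv_rhs => rw [← hinv]
      rfl)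
    unfold μT
    rcases hd with h | h
    · left
      rw [ae_map_iff (p := fun y => y ∈ s) measurable_Pi.aemeasurable hs]
      exact ae_mΩ_of_ae h
    · right
      rw [ae_map_iff (p := fun y => y ∉ s) measurable_Pi.aemeasurable hs.compl]
      exact ae_mΩ_of_ae h

/-! ### images versus preimages -/

theorem unshift_mem {y : ℤ → Bool} (hy : y ∈ orbitClosure xT) :
    (fun n => y (n - 1)) ∈ orbitClosure xT := by
  unfold orbitClosure at *
  have hc : Continuous (fun (y : ℤ → Bool) (n : ℤ) => y (n - 1)) :=
    continuous_pi fun n => continuous_apply (n - 1)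
  refine map_mem_closure hc hy ?_
  rintro _ ⟨k, rfl⟩
  refine ⟨k - 1, ?_⟩
  funext n
  change xT (n + (k - 1)) = xT (n - 1 + k)
  congr 1
  ring

/-- inverse of the shift on the orbit closure -/
def unShift (y : orbitClosure xT) : orbitClosure xT := ⟨fun n => y.1 (n - 1), unshift_mem y.2⟩

theorem unShift_left : Function.LeftInverse unShift (orbitShift xT) := by
  intro y
  apply Subtype.ext
  funext n
  simp [unShift, orbitShift, shift]

theorem unShift_right : Function.RightInverse unShift (orbitShift xT) := by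
  intro y
  apply Subtype.ext
  funext n
  simp [unShift, orbitShift, shift]

theorem measurable_unShift : Measurable unShift := by
  unfold unShift
  apply Measurable.subtype_mk
  have : Measurable (fun (y : ℤ → Bool) (n : ℤ) => y (n - 1)) := by
    rw [measurable_pi_iff]
    intro n
    exact measurable_pi_apply (n - 1)
  exact this.comp measurable_subtype_coe

theorem measurableSet_image (n : ℕ) {B : Set (orbitClosure xT)} (hB : MeasurableSet B) :
    MeasurableSet ((orbitShift xT)^[n] '' B) := by
  rw [Set.image_eq_preimage_of_inverse (unShift_left.iterate n) (unShift_right.iterate n)]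
  exact (measurable_unShift.iterate n) hB

theorem measure_image_inter (n : ℕ) {B : Set (orbitClosure xT)} (hB : MeasurableSet B) :
    μT ((orbitShift xT)^[n] '' B ∩ B) = μT (B ∩ (orbitShift xT)^[n] ⁻¹' B) := by
  rw [← (measurePreserving_iterate n).measure_preimage
    ((measurableSet_image n hB).inter hB).nullMeasurableSet]
  rw [Set.preimage_inter, Set.preimage_image_eq _ (unShift_left.iterate n).injective]

theorem measure_inter_preimage (n : ℕ) {B : Set (orbitClosure xT)} (hB : MeasurableSet B) :
    μT (B ∩ (orbitShift xT)^[n] ⁻¹' B) = mΩ (Pi ⁻¹' B ∩ TT n ⁻¹' (Pi ⁻¹' B)) := by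
  unfold μT
  rw [Measure.map_apply measurable_Pi (hB.inter ((measurable_orbitShift.iterate n) hB))]
  apply measure_congr
  filter_upwards [ae_nonInt_Ω] with ω hω
  apply propext
  have h := Pi_TT hω ω.2 n
  change (Pi ω ∈ B ∧ (orbitShift xT)^[n] (Pi ω) ∈ B) ↔ (Pi ω ∈ B ∧ Pi (TT n ω) ∈ B)
  have h' : (orbitShift xT)^[n] (Pi ω) = Pi (TT n ω) := h
  rw [h']

end MP6420b1
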