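import Mathlib
import Pool.Agent.Lib.MP_6420b1_an.Final

/-!
# MP_6420b1_an: partial rigidity and non-rigidity
-/

open MeasureTheory Filter Topology

namespace MP6420b1

/-! ### Partial rigidity -/

theorem mΩ_le_return {A : Set (ℤ_[2] × Bool)} (hA : MeasurableSet A) (k : ℕ) :
    mΩ A ≤ 4 * mΩ (A ∩ TT ((2 ^ k : ℕ) : ℤ) ⁻¹' A) +
      2⁻¹ * (err {z | (z, false) ∈ A} k + err {z | (z, true) ∈ A} k) := by
  rw [mΩ_apply hA, mΩ_apply (hA.inter ((measurable_TT _) hA))]
  have key : ∀ ε : Bool, haar {z | (z, ε) ∈ A} ≤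
      4 * haar {z | (z, ε) ∈ A ∩ TT ((2 ^ k : ℕ) : ℤ) ⁻¹' A} + err {z | (z, ε) ∈ A} k := by
    intro ε
    refine (measure_le_return _ k).trans ?_
    gcongr 4 * haar ?_ + _
    rintro z ⟨h1, h2, h3⟩
    refine ⟨h1, ?_⟩
    simp only [Set.mem_preimage, TT]
    rw [c_two_pow_of_bits h2, Bool.xor_false]
    have h4 : z + (((2 ^ k : ℕ) : ℤ) : ℤ_[2]) = z + (2:ℤ_[2]) ^ k := by push_cast; ring
    rw [h4]
    exact h3
  calc 2⁻¹ * (haar {z | (z, false) ∈ A} + haar {z | (z, true) ∈ A})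
      ≤ 2⁻¹ * ((4 * haar {z | (z, false) ∈ A ∩ TT ((2 ^ k : ℕ) : ℤ) ⁻¹' A} +
          err {z | (z, false) ∈ A} k) +
        (4 * haar {z | (z, true) ∈ A ∩ TT ((2 ^ k : ℕ) : ℤ) ⁻¹' A} +
          err {z | (z, true) ∈ A} k)) := by
        gcongr
        · exact key false
        · exact key true
    _ = _ := by ring

theorem partiallyRigid_μT : IsPartiallyRigid (orbitShift xT) μT := by
  refine ⟨1 / 4, by norm_num, fun k => 2 ^ k, tendsto_pow_atTop_atTop_of_one_lt (by norm_num), ?_⟩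
  intro B hB
  set A : Set (ℤ_[2] × Bool) := Pi ⁻¹' B with hA
  have hAm : MeasurableSet A := measurable_Pi hB
  have hμB : μT B = mΩ A := by
    unfold μT
    rw [Measure.map_apply measurable_Pi hB]
  have hf : ∀ k : ℕ, μT ((orbitShift xT)^[2 ^ k] '' B ∩ B) =
      mΩ (A ∩ TT ((2 ^ k : ℕ) : ℤ) ⁻¹' A) := by
    intro k
    rw [measure_image_inter _ hB, measure_inter_preimage _ hB]
  simp only [hf]
  rw [hμB]
  have he : Tendsto (fun k => 2⁻¹ * (err {z | (z, false) ∈ A} k + err {z | (z, true) ∈ A} k)) atTop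
      (𝓝 (0 : ENNReal)) := by
    have h1 := (tendsto_err (measurableSet_slice hAm false)).add
      (tendsto_err (measurableSet_slice hAm true))
    have h2 := ENNReal.Tendsto.const_mul (a := 2⁻¹) h1 (Or.inr (by simp))
    simpa using h2
  have h4 : ENNReal.ofReal (1 / 4) = 4⁻¹ := by
    rw [one_div, ENNReal.ofReal_inv_of_pos (by norm_num)]
    norm_num
  rw [h4]
  apply ENNReal.le_of_forall_pos_le_add
  intro η hη _
  rw [← tsub_le_iff_right]
  apply le_liminf_of_le (by isBoundedDefault)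
  have hev := (ENNReal.tendsto_nhds_zero.mp he) (η : ENNReal) (by exact_mod_cast hη)
  filter_upwards [hev] with k hk
  rw [tsub_le_iff_right]
  calc 4⁻¹ * mΩ A ≤ 4⁻¹ * (4 * mΩ (A ∩ TT ((2 ^ k : ℕ) : ℤ) ⁻¹' A) + η) := by
        gcongr
        exact (mΩ_le_return hAm k).trans (by gcongr)
    _ = mΩ (A ∩ TT ((2 ^ k : ℕ) : ℤ) ⁻¹' A) + 4⁻¹ * η := by
        rw [mul_add, ← mul_assoc, ENNReal.inv_mul_cancel (by simp) (by simp), one_mul]
    _ ≤ mΩ (A ∩ TT ((2 ^ k : ℕ) : ℤ) ⁻¹' A) + η := by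
        gcongr
        calc (4⁻¹ : ENNReal) * η ≤ 1 * η := by
              gcongr
              rw [ENNReal.inv_le_one]
              norm_num
          _ = η := one_mul _

/-! ### Non-rigidity -/

theorem measure_change_ge (m : ℕ) (hm : 1 ≤ m) :
    1 ≤ 8 * μT {y | y.1 0 ≠ y.1 m} := by
  set G : Set ℤ_[2] := ({z | c m z = true} \ CO) \ {z | z + (m : ℤ_[2]) ∈ CO} with hG
  have hCO' : haar {z : ℤ_[2] | z + (m : ℤ_[2]) ∈ CO} = haar CO :=
    measure_preimage_add_right haar (m : ℤ_[2]) CO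
  have h1 : haar {z | c m z = true} ≤ haar G + (haar CO + haar CO) := by
    have hsub : {z | c m z = true} ⊆ G ∪ (CO ∪ {z : ℤ_[2] | z + (m : ℤ_[2]) ∈ CO}) := by
      intro z hz
      by_cases h2 : z ∈ CO
      · exact Or.inr (Or.inl h2)
      · by_cases h3 : z + (m : ℤ_[2]) ∈ CO
        · exact Or.inr (Or.inr h3)
        · exact Or.inl ⟨⟨hz, h2⟩, h3⟩
    refine (measure_mono hsub).trans ((measure_union_le _ _).trans ?_)
    gcongr
    refine (measure_union_le _ _).trans ?_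
    rw [hCO']
  have h2 : (1 : ENNReal) ≤ 4 * haar G + 2⁻¹ := by
    calc (1 : ENNReal) ≤ 4 * haar {z | c m z = true} := measure_c_ge m hm
      _ ≤ 4 * (haar G + (haar CO + haar CO)) := by gcongr
      _ ≤ 4 * (haar G + ((16 : ENNReal)⁻¹ + (16 : ENNReal)⁻¹)) := by
          gcongr <;> exact measure_CO_le
      _ = 4 * haar G + (4 * 2) * (16 : ENNReal)⁻¹ := by ring
      _ = 4 * haar G + 2⁻¹ := by
          congr 1
          rw [show (16 : ENNReal) = (4 * 2) * 2 by norm_num, ENNReal.mul_inv (by simp) (by simp),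
            ← mul_assoc, ENNReal.mul_inv_cancel (by norm_num) (by finiteness), one_mul]
  have h3 : (1 : ENNReal) ≤ 8 * haar G := by
    have h4 : (2⁻¹ : ENNReal) ≤ 4 * haar G := by
      have h5 : (2⁻¹ : ENNReal) + 2⁻¹ ≤ 4 * haar G + 2⁻¹ := by
        rw [ENNReal.inv_two_add_inv_two]
        exact h2
      exact (ENNReal.add_le_add_iff_right (by simp)).mp h5
    calc (1 : ENNReal) = 2 * 2⁻¹ := (ENNReal.mul_inv_cancel (by simp) (by simp)).symm
      _ ≤ 2 * (4 * haar G) := by gcongr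
      _ = 8 * haar G := by ring
  refine h3.trans ?_
  gcongr
  -- haar G ≤ μT {...}
  have hev : ∀ i : ℤ, Measurable (fun y : orbitClosure xT => y.1 i) := fun i =>
    (measurable_pi_apply i).comp measurable_subtype_coe
  have hS : MeasurableSet {y : orbitClosure xT | y.1 0 ≠ y.1 m} := by
    have : {y : orbitClosure xT | y.1 0 ≠ y.1 m} = {y : orbitClosure xT | y.1 0 = y.1 m}ᶜ := rfl
    rw [this]
    exact (measurableSet_eq_fun (hev 0) (hev m)).compl
  unfold μT
  rw [Measure.map_apply measurable_Pi hS, mΩ_apply (measurable_Pi hS)]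
  have key : ∀ ε : Bool, haar G ≤ haar {z | (z, ε) ∈ Pi ⁻¹' {y | y.1 0 ≠ y.1 m}} := by
    intro ε
    apply measure_mono_ae
    filter_upwards [ae_nonInt] with z hz hzG
    obtain ⟨⟨hc, hco⟩, hco2⟩ := hzG
    change (Pi (z, ε)).1 0 ≠ (Pi (z, ε)).1 m
    rw [Pi_val hz]
    simp only [PI]
    have hno1 : ∀ n, ¬ coin n (z + ((0 : ℤ) : ℤ_[2])) := by
      intro n hn
      apply hco
      rw [Int.cast_zero, add_zero] at hn
      exact ⟨n, hn⟩
    have hno2 : ∀ n, ¬ coin n (z + ((m : ℤ) : ℤ_[2])) := by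
      intro n hn
      apply hco2
      rw [Int.cast_natCast] at hn
      exact ⟨n, hn⟩
    rw [x0_eq_none hno1, x0_eq_none hno2, c_zero]
    have hc' : c m z = true := hc
    rw [hc']
    cases ε <;> simp
  calc haar G = 2⁻¹ * (haar G + haar G) := by
        rw [mul_add, ← add_mul, ENNReal.inv_two_add_inv_two, one_mul]
    _ ≤ _ := by
        gcongr 2⁻¹ * ?_
        exact add_le_add (key false) (key true)

theorem not_rigid_μT : ¬ IsRigid (orbitShift xT) μT := by
  rintro ⟨n, hn, hB⟩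
  have hev : ∀ i : ℤ, Measurable (fun y : orbitClosure xT => y.1 i) := fun i =>
    (measurable_pi_apply i).comp measurable_subtype_coe
  set B : Set (orbitClosure xT) := {y | y.1 0 = true} with hBdef
  have hBm : MeasurableSet B := (hev 0) (measurableSet_singleton true)
  have h1 := hB B hBm
  have h0 := hB Bᶜ hBm.compl
  have hsum := h1.add h0
  have hone : μT B + μT Bᶜ = 1 := prob_add_prob_compl hBm
  rw [hone] at hsum
  have hbound : ∀ᶠ k in atTop, μT ((orbitShift xT)^[n k] '' B ∩ B) +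
      μT ((orbitShift xT)^[n k] '' Bᶜ ∩ Bᶜ) + 8⁻¹ ≤ 1 := by
    filter_upwards [hn.eventually_ge_atTop 1] with k hk
    rw [measure_image_inter _ hBm, measure_image_inter _ hBm.compl]
    set D : Set (orbitClosure xT) := {y | y.1 0 ≠ y.1 (n k)} with hDdef
    have hD : 8⁻¹ ≤ μT D := by
      have h2 := measure_change_ge (n k) hk
      calc (8⁻¹ : ENNReal) = 8⁻¹ * 1 := (mul_one _).symm
        _ ≤ 8⁻¹ * (8 * μT D) := by gcongr
        _ = μT D := by
          rw [← mul_assoc, ENNReal.inv_mul_cancel (by simp) (by finiteness), one_mul]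
    have hDm : MeasurableSet D := by
      have : D = {y : orbitClosure xT | y.1 0 = y.1 (n k)}ᶜ := rfl
      rw [this]
      exact (measurableSet_eq_fun (hev 0) (hev (n k))).compl
    have hTm : Measurable ((orbitShift xT)^[n k]) := measurable_orbitShift.iterate _
    have hit : ∀ y : orbitClosure xT, ((orbitShift xT)^[n k] y).1 0 = y.1 (n k) := by
      intro y
      rw [iterate_shift_val, zero_add]
    have hd1 : Disjoint (B ∩ (orbitShift xT)^[n k] ⁻¹' B) (Bᶜ ∩ (orbitShift xT)^[n k] ⁻¹' Bᶜ) := by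
      rw [Set.disjoint_left]
      rintro y ⟨hy, _⟩ ⟨hy2, _⟩
      exact hy2 hy
    have hd2 : Disjoint (B ∩ (orbitShift xT)^[n k] ⁻¹' B ∪ Bᶜ ∩ (orbitShift xT)^[n k] ⁻¹' Bᶜ) D := by
      rw [Set.disjoint_left]
      rintro y (⟨hy, hy'⟩ | ⟨hy, hy'⟩) hyD
      · apply hyD
        have e1 : y.1 0 = true := hy
        have e2 : ((orbitShift xT)^[n k] y).1 0 = true := hy'
        rw [hit] at e2
        rw [e1, e2]
      · apply hyD
        have e1 : ¬ y.1 0 = true := hy
        have e2 : ¬ ((orbitShift xT)^[n k] y).1 0 = true := hy'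
        rw [hit] at e2
        rw [Bool.not_eq_true] at e1 e2
        rw [e1, e2]
    calc μT (B ∩ (orbitShift xT)^[n k] ⁻¹' B) + μT (Bᶜ ∩ (orbitShift xT)^[n k] ⁻¹' Bᶜ) + 8⁻¹
        ≤ μT (B ∩ (orbitShift xT)^[n k] ⁻¹' B) + μT (Bᶜ ∩ (orbitShift xT)^[n k] ⁻¹' Bᶜ) + μT D := by
          gcongr
      _ = μT (B ∩ (orbitShift xT)^[n k] ⁻¹' B ∪ Bᶜ ∩ (orbitShift xT)^[n k] ⁻¹' Bᶜ ∪ D) := by
          rw [measure_union hd2 hDm, measure_union hd1 (hBm.compl.inter (hTm hBm.compl))]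
      _ ≤ 1 := prob_le_one
  have hlim : Tendsto (fun k => μT ((orbitShift xT)^[n k] '' B ∩ B) +
      μT ((orbitShift xT)^[n k] '' Bᶜ ∩ Bᶜ) + 8⁻¹) atTop (𝓝 (1 + 8⁻¹)) :=
    hsum.add_const _
  have hle : (1 : ENNReal) + 8⁻¹ ≤ 1 := le_of_tendsto hlim hbound
  have hlt : (1 : ENNReal) < 1 + 8⁻¹ := ENNReal.lt_add_right (by simp) (by simp)
  exact absurd hle (not_le.mpr hlt)

/-! ### Non-periodicity -/

theorem not_periodic_xT : ¬ ∃ p : ℤ, 1 ≤ p ∧ ∀ n : ℤ, xT (n + p) = xT n := by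
  rintro ⟨p, hp, hper⟩
  obtain ⟨m, rfl⟩ : ∃ m : ℕ, p = m := ⟨p.toNat, (Int.toNat_of_nonneg (by omega)).symm⟩
  have hm : 1 ≤ m := by exact_mod_cast hp
  have h1 := measure_change_ge m hm
  have h2 : {y : orbitClosure xT | y.1 0 ≠ y.1 m} = ∅ := by
    rw [Set.eq_empty_iff_forall_notMem]
    intro y hy
    apply hy
    have hcl : IsClosed {y : ℤ → Bool | y 0 = y m} :=
      isClosed_eq (continuous_apply 0) (continuous_apply (m : ℤ))
    have hsub : orbitClosure xT ⊆ {y : ℤ → Bool | y 0 = y m} := by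
      apply closure_minimal _ hcl
      rintro _ ⟨k, rfl⟩
      change xT (0 + k) = xT (m + k)
      rw [zero_add, add_comm, hper]
    exact hsub y.2
  rw [h2] at h1
  simp at h1

theorem isToeplitz_xT : IsToeplitz xT := ⟨not_periodic_xT, xT_toeplitz⟩

end MP6420b1
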